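import Pool.Agent.TH803.CH.Cyc

set_option autoImplicit false

/-! # The final statement -/

open MeasureTheory Filter Topology Set
open Pool.Agent.H295R2

namespace Pool.Agent.TH803.CH

noncomputable section

lemma int_congr (n : ℕ) (G : ℝ → ℝ) (a b : ℝ) :
    ∫ t in a..b, G (logF n t) = ∫ t in a..b, G (GG n t) := by
  refine intervalIntegral.integral_congr_ae ?_
  filter_upwards [logF_ae n] with t ht _
  rw [ht]

lemma posLog_eq (n : ℕ) (t : ℝ) :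
    Real.posLog ‖(cyclProd n).eval (Complex.exp (2 * Real.pi * t * Complex.I))‖ = max 0 (logF n t) := rfl

lemma level_F {α β : ℝ} (hα : 0 ≤ α) (hαβ : α < β) (hβ : β ≤ 1) {ε : ℝ} (hε : 0 < ε) :
    ∀ᶠ n : ℕ in atTop, (n : ℝ) ^ (-ε) ≤
      volume.real {t : ℝ | t ∈ Ioc α β ∧ (n : ℝ) ^ (zetaSup - ε) ≤ |logF n t| ∧ |logF n t| ≤ (n : ℝ) ^ (zetaSup + ε)} := by
  filter_upwards [level_set hα hαβ hβ hε] with n hn
  refine hn.trans (le_of_eq ?_)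
  rw [Measure.real, Measure.real]
  congr 1
  refine measure_congr ?_
  filter_upwards [logF_ae n] with t ht
  have : (t ∈ {t : ℝ | t ∈ Ioc α β ∧ (n : ℝ) ^ (zetaSup - ε) ≤ |GG n t| ∧ |GG n t| ≤ (n : ℝ) ^ (zetaSup + ε)}) =
      (t ∈ {t : ℝ | t ∈ Ioc α β ∧ (n : ℝ) ^ (zetaSup - ε) ≤ |logF n t| ∧ |logF n t| ≤ (n : ℝ) ^ (zetaSup + ε)}) := by
    simp only [Set.mem_ofPred_eq, ht]
  exact this

lemma height_limit :
    Tendsto (fun n : ℕ => Real.log (∫ t in (0 : ℝ)..1, max 0 (logF n t)) / Real.log n) atTop (𝓝 zetaSup) := by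
  have e : ∀ n : ℕ, ∫ t in (0 : ℝ)..1, max 0 (logF n t) = (∫ t in (0 : ℝ)..1, |GG n t|) / 2 := by
    intro n
    rw [int_congr n (fun y => max 0 y), int_pos]
  simp only [e]
  refine log_limit (fun ε hε => ?_) fun ε hε => ?_
  · filter_upwards [arc_lower le_rfl one_pos le_rfl (show 0 < ε / 2 by linarith),
      rpow_eventually_ge (show 0 < ε / 2 by linarith) 2, eventually_ge_atTop 1] with n h1 h2 hn
    have hn0 : (0:ℝ) < n := by exact_mod_cast hn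
    have h3 : (n : ℝ) ^ (ε / 2) * (n : ℝ) ^ (zetaSup - ε) = (n : ℝ) ^ (zetaSup - ε / 2) := by
      rw [← Real.rpow_add hn0]; congr 1; ring
    have h4 : 0 ≤ (n : ℝ) ^ (zetaSup - ε) := by positivity
    nlinarith
  · filter_upwards [L1_upper hε] with n h1
    have : 0 ≤ ∫ t in (0 : ℝ)..1, |GG n t| := intervalIntegral.integral_nonneg zero_le_one fun t _ => abs_nonneg _
    linarith

/-- from one arc and infinitely many `n` -/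
lemma sup_le_of_freq {α β : ℝ} (hα : 0 ≤ α) (hαβ : α < β) (hβ : β ≤ 1) {θ : ℝ}
    (h : ∃ᶠ n : ℕ in atTop, ∫ t in α..β, |logF n t| ≤ (n : ℝ) ^ θ) : zetaSup ≤ θ := by
  by_contra hc
  push Not at hc
  have h1 := arc_lower hα hαβ hβ (show 0 < (zetaSup - θ) / 2 by linarith)
  obtain ⟨n, hn1, hn2, hn3⟩ := (h.and_eventually (h1.and (eventually_ge_atTop 2))).exists
  rw [int_congr n (fun y => |y|)] at hn1
  have hn : (1 : ℝ) < n := by exact_mod_cast hn3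
  have h2 := (Real.rpow_lt_rpow_left_iff hn (y := θ) (z := zetaSup - (zetaSup - θ) / 2)).2 (by linarith)
  linarith

/-- the upper bound from the Mertens function -/
lemma upper_of_mertens {σ C : ℝ} (hσ : 1/2 < σ) (h : ∀ y : ℝ, 1 ≤ y → |Mx y| ≤ C * y ^ σ) :
    ∃ K > 0, ∀ n : ℕ, 1 ≤ n → ∫ t in (0 : ℝ)..1, |logF n t| ≤ K * (n : ℝ) ^ σ := by
  have h' : ∀ y : ℝ, 1 ≤ y → |Mx y| ≤ (max C 1) * y ^ σ := by
    intro y hy
    refine (h y hy).trans ?_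
    have : 0 ≤ y ^ σ := by positivity
    have := le_max_left C 1
    gcongr
  obtain ⟨K, hK, hb⟩ := GG_sq_of_mertens hσ (lt_of_lt_of_le one_pos (le_max_right C 1)) h'
  refine ⟨1 / 2 + K / 2, by positivity, fun n hn => ?_⟩
  have hn0 : (0:ℝ) < n := by exact_mod_cast hn
  rw [int_congr n (fun y => |y|)]
  have h2 := L1_of_sq (n := n) (l := (n : ℝ) ^ σ) (by positivity)
  have h3 := hb n hn
  have hp : 0 < (n : ℝ) ^ σ := by positivity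
  have h4 : (∫ t in (0 : ℝ)..1, GG n t ^ 2) / (2 * (n : ℝ) ^ σ) ≤ K / 2 * (n : ℝ) ^ σ := by
    rw [div_le_iff₀ (by positivity)]
    calc _ ≤ _ := h3
      _ = _ := by ring
  linarith

lemma sup_le_of_mertens {θ : ℝ} (hθ : 1 / 2 ≤ θ)
    (h : ∀ ε : ℝ, 0 < ε → ∃ C : ℝ, ∀ x : ℝ, 1 ≤ x → |Mx x| ≤ C * x ^ (θ + ε)) :
    ∀ ε : ℝ, 0 < ε → ∀ᶠ n : ℕ in atTop, ∫ t in (0 : ℝ)..1, |logF n t| ≤ (n : ℝ) ^ (θ + ε) := by
  intro ε hε
  obtain ⟨C, hC⟩ := h (ε / 2) (by linarith)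
  obtain ⟨K, hK, hb⟩ := upper_of_mertens (σ := θ + ε / 2) (by linarith) hC
  filter_upwards [rpow_eventually_ge (show 0 < ε / 2 by linarith) K, eventually_ge_atTop 1] with n h1 hn
  have hn0 : (0:ℝ) < n := by exact_mod_cast hn
  calc _ ≤ K * (n : ℝ) ^ (θ + ε / 2) := hb n hn
    _ ≤ (n : ℝ) ^ (ε / 2) * (n : ℝ) ^ (θ + ε / 2) := by gcongr
    _ = _ := by rw [← Real.rpow_add hn0]; congr 1; ring

lemma mertens_of_sup {θ : ℝ} (hθ : zetaSup ≤ θ) :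
    ∀ ε : ℝ, 0 < ε → ∃ C : ℝ, ∀ x : ℝ, 1 ≤ x → |Mx x| ≤ C * x ^ (θ + ε) := by
  intro ε hε
  obtain ⟨σ, _, hσ, _, _, C, hC0, hC⟩ := mertens_sup hε
  refine ⟨C, fun x hx => (hC x hx).trans ?_⟩
  have : x ^ σ ≤ x ^ (θ + ε) := Real.rpow_le_rpow_of_exponent_le hx (by linarith)
  gcongr

theorem final :
    (∀ α β : ℝ, 0 ≤ α → α < β → β ≤ 1 → ∀ ε : ℝ, 0 < ε → ∀ᶠ n : ℕ in atTop,
      (n : ℝ) ^ (-ε) ≤ volume.real {t : ℝ | t ∈ Ioc α β ∧ (n : ℝ) ^ (zetaSup - ε) ≤ |logF n t| ∧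
        |logF n t| ≤ (n : ℝ) ^ (zetaSup + ε)}) ∧
    (∀ α β : ℝ, 0 ≤ α → α < β → β ≤ 1 → ∀ p : ℝ, 0 < p → p ≤ 2 →
      Tendsto (fun n : ℕ => Real.log (∫ t in α..β, |logF n t| ^ p) / Real.log n) atTop
        (𝓝 (p * zetaSup))) ∧
    Tendsto (fun n : ℕ => Real.log (∫ t in (0 : ℝ)..1, max 0 (logF n t)) / Real.log n) atTop (𝓝 zetaSup) ∧
    ((∃ θ : ℝ, θ < 1 ∧ ∃ C : ℝ, ∀ x : ℝ, 1 ≤ x → |Mx x| ≤ C * x ^ θ) ↔
      ∃ α β : ℝ, 0 ≤ α ∧ α < β ∧ β ≤ 1 ∧ ∃ δ : ℝ, 0 < δ ∧ ∃ᶠ n : ℕ in atTop,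
        ∫ t in α..β, |logF n t| ≤ (n : ℝ) ^ (1 - δ)) ∧
    (∀ θ : ℝ, 1 / 2 ≤ θ →
      ((∀ ε : ℝ, 0 < ε → ∃ C : ℝ, ∀ x : ℝ, 1 ≤ x → |Mx x| ≤ C * x ^ (θ + ε)) ↔
        ∃ α β : ℝ, 0 ≤ α ∧ α < β ∧ β ≤ 1 ∧ ∀ ε : ℝ, 0 < ε → ∃ᶠ n : ℕ in atTop,
          ∫ t in α..β, |logF n t| ≤ (n : ℝ) ^ (θ + ε))) := by
  refine ⟨fun α β hα hαβ hβ ε hε => level_F hα hαβ hβ hε, fun α β hα hαβ hβ p hp0 hp2 => ?_, height_limit,
    ⟨?_, ?_⟩, fun θ hθ => ⟨fun h => ?_, ?_⟩⟩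
  · have e : ∀ n : ℕ, ∫ t in α..β, |logF n t| ^ p = ∫ t in α..β, |GG n t| ^ p := fun n =>
      int_congr n (fun y => |y| ^ p) α β
    simp only [e]
    exact moment_limit hα hαβ hβ hp0 hp2
  · rintro ⟨θ, hθ, C, hC⟩
    refine ⟨0, 1, le_rfl, one_pos, le_rfl, ?_⟩
    set σ : ℝ := max θ (3 / 4) with hσ
    have hσ1 : σ < 1 := max_lt hθ (by norm_num)
    have hσ2 : 3 / 4 ≤ σ := le_max_right _ _
    have hC' : ∀ x : ℝ, 1 ≤ x → |Mx x| ≤ (max C 1) * x ^ σ := by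
      intro x hx
      refine (hC x hx).trans ?_
      have h1 : x ^ θ ≤ x ^ σ := Real.rpow_le_rpow_of_exponent_le hx (le_max_left _ _)
      have h2 : 0 ≤ x ^ θ := by positivity
      have h3 := le_max_left C 1
      have h4 : 0 ≤ max C 1 := zero_le_one.trans (le_max_right C 1)
      calc C * x ^ θ ≤ max C 1 * x ^ θ := by gcongr
        _ ≤ max C 1 * x ^ σ := by gcongr
    obtain ⟨K, hK, hb⟩ := upper_of_mertens (by linarith) hC'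
    refine ⟨(1 - σ) / 2, by linarith, Eventually.frequently ?_⟩
    filter_upwards [rpow_eventually_ge (show 0 < (1 - σ) / 2 by linarith) K, eventually_ge_atTop 1] with n h1 hn
    have hn0 : (0:ℝ) < n := by exact_mod_cast hn
    calc _ ≤ K * (n : ℝ) ^ σ := hb n hn
      _ ≤ (n : ℝ) ^ ((1 - σ) / 2) * (n : ℝ) ^ σ := by gcongr
      _ = _ := by rw [← Real.rpow_add hn0]; congr 1; ring
  · rintro ⟨α, β, hα, hαβ, hβ, δ, hδ, h⟩
    have h1 := sup_le_of_freq hα hαβ hβ h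
    obtain ⟨C, hC⟩ := mertens_of_sup h1 (δ / 2) (by linarith)
    exact ⟨1 - δ + δ / 2, by linarith, C, hC⟩
  · exact ⟨0, 1, le_rfl, one_pos, le_rfl, fun ε hε => (sup_le_of_mertens hθ h ε hε).frequently⟩
  · rintro ⟨α, β, hα, hαβ, hβ, h⟩
    have h1 : zetaSup ≤ θ := by
      refine le_of_forall_pos_le_add fun ε hε => ?_
      exact sup_le_of_freq hα hαβ hβ (h ε hε)
    exact mertens_of_sup h1

end

end Pool.Agent.TH803.CH
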