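import Pool.Agent.TH803.CH.Fin

set_option autoImplicit false

/-! # The product of the first `n` cyclotomic polynomials on the unit circle -/

open MeasureTheory Filter Topology Set Complex
open Pool.Agent.H295R2

namespace Pool.Agent.TH803.CH

noncomputable section

lemma prim_sum {m : ℕ} (hm : 1 ≤ m) (f : ℂ → ℝ) :
    ∑ μ ∈ primitiveRoots m ℂ, f μ =
      ∑ h ∈ (Finset.Icc 1 m).filter (fun h => Nat.Coprime h m), f (ee ((h : ℝ) / m)) := by
  have hm0 : (m : ℝ) ≠ 0 := by
    have : (0 : ℝ) < m := by exact_mod_cast hm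
    exact this.ne'
  have hmp : (0 : ℝ) < m := by exact_mod_cast hm
  have hee : ∀ h : ℕ, ee ((h : ℝ) / m) = Complex.exp (2 * Real.pi * I * (h / m)) := by
    intro h
    unfold ee
    congr 1
    push_cast
    ring
  symm
  refine Finset.sum_nbij (fun h : ℕ => ee ((h : ℝ) / m)) ?_ ?_ ?_ ?_
  · intro h hh
    rw [Finset.mem_filter, Finset.mem_Icc] at hh
    rw [mem_primitiveRoots (by omega)]
    simp only [hee]
    exact Complex.isPrimitiveRoot_exp_of_coprime h m (by omega) hh.2
  · intro a ha b hb hab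
    simp only [Finset.coe_filter, Finset.mem_Icc, Set.mem_ofPred_eq] at ha hb
    simp only at hab
    have h1 : ee ((a : ℝ) / m - (b : ℝ) / m) = 1 := by
      rw [ee_sub, hab, mul_inv_cancel₀ (ee_ne _)]
    obtain ⟨k, hk⟩ := ee_eq_one h1
    have h2 : (a : ℝ) - b = k * m := by
      field_simp at hk
      linarith
    have h3 : (a : ℤ) - b = k * m := by exact_mod_cast h2
    have h4 : k = 0 := by
      by_contra hk0
      rcases lt_or_gt_of_ne hk0 with h5 | h5
      · have : k ≤ -1 := by omega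
        have h6 : k * m ≤ -1 * m := by
          apply mul_le_mul_of_nonneg_right this; positivity
        omega
      · have : 1 ≤ k := by omega
        have h6 : 1 * (m : ℤ) ≤ k * m := by
          apply mul_le_mul_of_nonneg_right this; positivity
        omega
    rw [h4, zero_mul] at h3
    omega
  · intro ζ hζ
    rw [Finset.mem_coe, mem_primitiveRoots (by omega), Complex.isPrimitiveRoot_iff _ _ (by omega)] at hζ
    obtain ⟨i, hi, hco, hζ⟩ := hζ
    rcases Nat.eq_zero_or_pos i with h0 | h0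
    · subst h0
      have hm1 : m = 1 := by simpa using hco
      subst hm1
      refine ⟨1, by simp, ?_⟩
      simp only [hee]
      rw [← hζ]
      simp
    · refine ⟨i, ?_, ?_⟩
      · simp only [Finset.coe_filter, Finset.mem_Icc, Set.mem_ofPred_eq]
        exact ⟨⟨h0, hi.le⟩, hco⟩
      · simp only [hee]
        exact hζ
  · intro h _
    rfl

/-- The product `Φ_1 Φ_2 ⋯ Φ_n` of the first `n` cyclotomic polynomials. -/
def cyclProd (n : ℕ) : Polynomial ℂ := ∏ m ∈ Finset.Icc 1 n, Polynomial.cyclotomic m ℂ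

/-- `log |Φ_1 ⋯ Φ_n|` at the point `e^{2πit}` of the unit circle. -/
def logF (n : ℕ) (t : ℝ) : ℝ := Real.log ‖(cyclProd n).eval (Complex.exp (2 * Real.pi * t * Complex.I))‖

lemma norm_sub_ee (x t : ℝ) : ‖ee t - ee x‖ = ‖1 - ee (x - t)‖ := by
  have : ee t - ee x = ee t * (1 - ee (x - t)) := by
    rw [mul_sub, mul_one, ← ee_add, add_sub_cancel]
  rw [this, norm_mul, ee_norm, one_mul]

lemma log_cyclotomic {m : ℕ} (hm : 1 ≤ m) {t : ℝ}
    (ht : ∀ h ∈ (Finset.Icc 1 m).filter (fun h => Nat.Coprime h m), ee ((h : ℝ) / m - t) ≠ 1) :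
    (Polynomial.cyclotomic m ℂ).eval (ee t) ≠ 0 ∧
    Real.log ‖(Polynomial.cyclotomic m ℂ).eval (ee t)‖ =
      ∑ h ∈ (Finset.Icc 1 m).filter (fun h => Nat.Coprime h m), ll ((h : ℝ) / m - t) := by
  have hprod : (Polynomial.cyclotomic m ℂ).eval (ee t) = ∏ μ ∈ primitiveRoots m ℂ, (ee t - μ) := by
    rw [Polynomial.cyclotomic_eq_prod_X_sub_primitiveRoots (Complex.isPrimitiveRoot_exp m (by omega)),
      Polynomial.eval_prod]
    refine Finset.prod_congr rfl fun μ _ => ?_
    rw [Polynomial.eval_sub, Polynomial.eval_X, Polynomial.eval_C]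
  have hne : ∀ μ ∈ primitiveRoots m ℂ, ee t - μ ≠ 0 := by
    intro μ hμ h0
    have h1 := prim_sum hm (fun ν => if ν = μ then 1 else 0)
    rw [Finset.sum_ite_eq' (primitiveRoots m ℂ) μ, if_pos hμ] at h1
    have h2 : ∑ h ∈ (Finset.Icc 1 m).filter (fun h => Nat.Coprime h m), (if ee ((h : ℝ) / m) = μ then (1 : ℝ) else 0) = 0 := by
      refine Finset.sum_eq_zero fun h hh => ?_
      rw [if_neg]
      intro h3
      apply ht h hh
      rw [ee_sub, h3, ← sub_eq_zero.1 h0]
      exact mul_inv_cancel₀ (ee_ne t)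
    rw [h2] at h1
    exact one_ne_zero h1
  refine ⟨?_, ?_⟩
  · rw [hprod]
    exact Finset.prod_ne_zero_iff.2 hne
  · rw [hprod, norm_prod, Real.log_prod fun μ hμ => norm_ne_zero_iff.2 (hne μ hμ),
      prim_sum hm (fun μ => Real.log ‖ee t - μ‖)]
    refine Finset.sum_congr rfl fun h _ => ?_
    rw [norm_sub_ee]
    rfl

lemma logF_ae (n : ℕ) : ∀ᵐ t : ℝ, logF n t = GG n t := by
  have hall : ∀ᵐ t : ℝ, ∀ x ∈ farey n, ee ((x : ℝ) - t) ≠ 1 := by
    rw [Filter.eventually_all_finset]
    intro x _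
    exact ae_ne (x : ℝ)
  filter_upwards [hall] with t ht
  have hz : Complex.exp (2 * Real.pi * t * Complex.I) = ee t := by
    unfold ee
    congr 1
    push_cast
    ring
  have hmem : ∀ m ∈ Finset.Icc 1 n, ∀ h ∈ (Finset.Icc 1 m).filter (fun h => Nat.Coprime h m),
      ee ((h : ℝ) / m - t) ≠ 1 := by
    intro m hm h hh
    rw [Finset.mem_Icc] at hm
    rw [Finset.mem_filter, Finset.mem_Icc] at hh
    have h1 : ((h : ℚ) / (m : ℚ)) ∈ farey n := by
      have hm0 : (0 : ℚ) < m := by exact_mod_cast hm.1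
      have hh0 : (0 : ℚ) < h := by exact_mod_cast hh.1.1
      rw [mem_farey]
      refine ⟨by positivity, ?_, ?_⟩
      · rw [div_le_one hm0]; exact_mod_cast hh.1.2
      · have h2 : ((h : ℚ) / (m : ℚ)).den ∣ m := by
          have := Rat.den_dvd (h : ℤ) (m : ℤ)
          rw [Rat.divInt_eq_div, Int.cast_natCast, Int.cast_natCast] at this
          exact Int.natCast_dvd_natCast.mp this
        exact (Nat.le_of_dvd (by omega) h2).trans hm.2
    have h3 := ht _ h1
    push_cast at h3
    exact h3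
  unfold logF cyclProd GG
  rw [hz, Polynomial.eval_prod, norm_prod, Real.log_prod fun m hm =>
    norm_ne_zero_iff.2 (log_cyclotomic (Finset.mem_Icc.1 hm).1 (hmem m hm)).1,
    sum_farey_eq n (fun x => ll ((x : ℝ) - t))]
  refine Finset.sum_congr rfl fun m hm => ?_
  rw [(log_cyclotomic (Finset.mem_Icc.1 hm).1 (hmem m hm)).2]
  refine Finset.sum_congr rfl fun h _ => ?_
  push_cast
  rfl

end

end Pool.Agent.TH803.CH
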