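import Pool.Agent.TH803.CH.Four

set_option autoImplicit false

/-! # Integrability of `log |1 - e(r - t)|` and its Fourier coefficients -/

open MeasureTheory Filter Topology Set Complex

namespace Pool.Agent.TH803.CH

noncomputable section

/-- `log |1 - e(u)|` -/
def ll (u : ℝ) : ℝ := Real.log ‖1 - ee u‖

lemma meas_ll (r : ℝ) : Measurable fun t : ℝ => ll (r - t) := by
  unfold ll
  have : Continuous fun t : ℝ => ‖1 - ee (r - t)‖ := by fun_prop
  exact Real.measurable_log.comp this.measurable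

lemma ae_ne (r : ℝ) : ∀ᵐ t : ℝ, ee (r - t) ≠ 1 := by
  have hc : (Set.range fun k : ℤ => r - (k : ℝ)).Countable := Set.countable_range _
  have h0 := hc.measure_zero volume
  rw [ae_iff]
  refine measure_mono_null ?_ h0
  intro t ht
  simp only [ne_eq, not_not, Set.mem_ofPred_eq] at ht
  obtain ⟨k, hk⟩ := ee_eq_one ht
  exact ⟨k, by simp only; linarith⟩

lemma norm_pos {u : ℝ} (h : ee u ≠ 1) : 0 < ‖1 - ee u‖ := by
  rw [norm_pos_iff, sub_ne_zero]
  exact fun h' => h h'.symm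

lemma norm_le_two (u : ℝ) : ‖1 - ee u‖ ≤ 2 := by
  calc ‖1 - ee u‖ ≤ ‖(1 : ℂ)‖ + ‖ee u‖ := norm_sub_le _ _
    _ = 2 := by rw [norm_one, ee_norm]; norm_num

lemma rho_dom {ρ : ℝ} (h0 : 0 ≤ ρ) (h1 : ρ < 1) {u : ℝ} (h : ee u ≠ 1) :
    |Real.log ‖1 - (ρ : ℂ) * ee u‖| ≤ |ll u| + Real.log 2 := by
  have hx := norm_pos h
  have e1 : ‖(1 : ℂ) - ρ‖ = 1 - ρ := by
    rw [← Complex.ofReal_one, ← Complex.ofReal_sub, Complex.norm_real, Real.norm_of_nonneg (by linarith)]
  have h2 : 1 - ρ ≤ ‖1 - (ρ : ℂ) * ee u‖ := by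
    have h3 : ‖(1 : ℂ)‖ - ‖(ρ : ℂ) * ee u‖ ≤ ‖1 - (ρ : ℂ) * ee u‖ := norm_sub_norm_le _ _
    rw [norm_one, norm_mul, ee_norm, mul_one, Complex.norm_real, Real.norm_of_nonneg h0] at h3
    exact h3
  have h4 : ‖1 - ee u‖ ≤ ‖1 - (ρ : ℂ) * ee u‖ + (1 - ρ) := by
    have h5 : 1 - ee u = (1 - (ρ : ℂ) * ee u) - (1 - ρ) * ee u := by ring
    calc ‖1 - ee u‖ = ‖(1 - (ρ : ℂ) * ee u) - (1 - ρ) * ee u‖ := by rw [← h5]
      _ ≤ ‖1 - (ρ : ℂ) * ee u‖ + ‖(1 - (ρ : ℂ)) * ee u‖ := norm_sub_le _ _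
      _ = _ := by rw [norm_mul, ee_norm, mul_one, e1]
  have hy : ‖1 - ee u‖ / 2 ≤ ‖1 - (ρ : ℂ) * ee u‖ := by linarith
  have hy0 : 0 < ‖1 - (ρ : ℂ) * ee u‖ := by linarith
  have hy2 : ‖1 - (ρ : ℂ) * ee u‖ ≤ 2 := by
    calc ‖1 - (ρ : ℂ) * ee u‖ ≤ ‖(1 : ℂ)‖ + ‖(ρ : ℂ) * ee u‖ := norm_sub_le _ _
      _ ≤ 2 := by
        rw [norm_one, norm_mul, ee_norm, mul_one, Complex.norm_real, Real.norm_of_nonneg h0]; linarith
  have h6 : Real.log (‖1 - ee u‖ / 2) ≤ Real.log ‖1 - (ρ : ℂ) * ee u‖ := Real.log_le_log (by linarith) hy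
  rw [Real.log_div hx.ne' (by norm_num)] at h6
  have h7 : Real.log ‖1 - (ρ : ℂ) * ee u‖ ≤ Real.log 2 := Real.log_le_log hy0 hy2
  have h8 := neg_abs_le (ll u)
  have h9 := abs_nonneg (ll u)
  unfold ll at h8 h9 ⊢
  rw [abs_le]
  constructor <;> linarith

/-! ### Integrability -/

/-- `|y|^(-1/2)` -/
def hh (y : ℝ) : ℝ := |y| ^ (-(1 / 2) : ℝ)

lemma hh_nonneg (y : ℝ) : 0 ≤ hh y := Real.rpow_nonneg (abs_nonneg _) _

lemma hh_int0 {b : ℝ} (hb : 0 ≤ b) : IntervalIntegrable hh volume 0 b := by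
  have h := intervalIntegral.intervalIntegrable_rpow' (a := 0) (b := b) (r := (-(1 / 2) : ℝ)) (by norm_num)
  refine h.congr ?_
  rw [Set.uIoc_of_le hb]
  intro x hx
  simp only [hh, abs_of_pos hx.1]

lemma hh_int (a b : ℝ) : IntervalIntegrable hh volume a b := by
  have key : ∀ b : ℝ, IntervalIntegrable hh volume 0 b := by
    intro b
    rcases le_total 0 b with h | h
    · exact hh_int0 h
    · have h1 := hh_int0 (b := -b) (by linarith)
      have h2 := (IntervalIntegrable.iff_comp_neg (by simp)).1 h1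
      have e : (fun x => hh (-x)) = hh := by
        funext x; simp [hh]
      rw [e, neg_zero, neg_neg] at h2
      exact h2
  exact (key a).symm.trans (key b)

lemma hh_shift (c a b : ℝ) : IntervalIntegrable (fun t => hh (t - c)) volume a b := by
  have h := (hh_int (a - c) (b - c)).comp_sub_right c
  simpa using h

lemma log_sq_le {x : ℝ} (h0 : 0 < x) (h2 : x ≤ 2) : (Real.log x) ^ 2 ≤ 16 * x ^ (-(1 / 2) : ℝ) := by
  have hinv : 0 < x⁻¹ := inv_pos.2 h0
  have h3 : |Real.log x| ≤ 4 * (x⁻¹) ^ (1 / 4 : ℝ) := by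
    rcases le_total x 1 with h | h
    · have h4 : 0 ≤ -Real.log x := by
        have := Real.log_nonpos h0.le h
        linarith
      rw [abs_of_nonpos (by linarith)]
      have h5 := Real.log_le_rpow_div hinv.le (ε := 1 / 4) (by norm_num)
      rw [Real.log_inv] at h5
      linarith
    · have h4 : 0 ≤ Real.log x := Real.log_nonneg h
      rw [abs_of_nonneg h4]
      have h5 : Real.log x ≤ 1 := by
        have := Real.log_le_sub_one_of_pos h0
        linarith
      have h6 : (1 / 2 : ℝ) ≤ x⁻¹ := by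
        rw [one_div]
        exact inv_anti₀ h0 h2
      have h7 : (1 / 2 : ℝ) ≤ (x⁻¹) ^ (1 / 4 : ℝ) := by
        calc (1 / 2 : ℝ) = (1 / 2 : ℝ) ^ (1 : ℝ) := by rw [Real.rpow_one]
          _ ≤ (1 / 2 : ℝ) ^ (1 / 4 : ℝ) :=
            Real.rpow_le_rpow_of_exponent_ge (by norm_num) (by norm_num) (by norm_num)
          _ ≤ _ := Real.rpow_le_rpow (by norm_num) h6 (by norm_num)
      linarith
  have h4 : ((x⁻¹) ^ (1 / 4 : ℝ)) ^ 2 = x ^ (-(1 / 2) : ℝ) := by
    rw [← Real.rpow_natCast, ← Real.rpow_mul hinv.le, Real.inv_rpow h0.le, ← Real.rpow_neg h0.le]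
    norm_num
  calc (Real.log x) ^ 2 = |Real.log x| ^ 2 := (sq_abs _).symm
    _ ≤ (4 * (x⁻¹) ^ (1 / 4 : ℝ)) ^ 2 := by gcongr
    _ = _ := by rw [mul_pow, h4]; norm_num

lemma norm_one_sub_ee (u : ℝ) : ‖1 - ee u‖ = 2 * |Real.sin (Real.pi * u)| := by
  have h : 1 - ee u = -(2 * I) * (Real.sin (Real.pi * u) : ℂ) * ee (u / 2) := by
    have e1 : ee u = ee (u / 2) * ee (u / 2) := by rw [← ee_add]; congr 1; ring
    have e2 : (1 : ℂ) = ee (u / 2) * ee (-(u / 2)) := by rw [← ee_add, add_neg_cancel, ee_zero]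
    have e3 : (Real.sin (Real.pi * u) : ℂ) = (ee (-(u / 2)) - ee (u / 2)) * I / 2 := by
      rw [Complex.ofReal_sin, Complex.sin]
      unfold ee
      congr 3
      · congr 1; push_cast; ring
      · congr 1; push_cast; ring
    rw [e3]
    rw [e1]
    nth_rw 1 [e2]
    have hI : I * I = -1 := Complex.I_mul_I
    linear_combination (ee (u / 2) * (ee (-(u / 2)) - ee (u / 2))) * hI
  rw [h, norm_mul, norm_mul, ee_norm, Complex.norm_real]
  simp

lemma sin_ge {v : ℝ} (h0 : 0 ≤ v) (h1 : v ≤ 1 / 2) : 2 * v ≤ Real.sin (Real.pi * v) := by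
  have hpi := Real.pi_pos
  have h := Real.mul_le_sin (x := Real.pi * v) (by positivity) (by nlinarith)
  calc 2 * v = 2 / Real.pi * (Real.pi * v) := by field_simp
    _ ≤ _ := h

/-- the distance to the nearest integer, from below, on `[-1, 1]` -/
lemma norm_lower {u : ℝ} (h0 : -1 ≤ u) (h1 : u ≤ 1) :
    4 * min |u| (min |u - 1| |u + 1|) ≤ ‖1 - ee u‖ := by
  rw [norm_one_sub_ee]
  have hper : |Real.sin (Real.pi * u)| = Real.sin (Real.pi * |u|) := by
    rcases le_total 0 u with h | h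
    · rw [abs_of_nonneg h, abs_of_nonneg]
      exact Real.sin_nonneg_of_nonneg_of_le_pi (by positivity) (by nlinarith [Real.pi_pos])
    · rw [abs_of_nonpos h, mul_neg, Real.sin_neg, abs_of_nonpos]
      rw [← neg_nonneg, ← Real.sin_neg]
      refine Real.sin_nonneg_of_nonneg_of_le_pi ?_ ?_ <;> nlinarith [Real.pi_pos]
  rw [hper]
  have ha0 := abs_nonneg u
  have ha1 : |u| ≤ 1 := abs_le.2 ⟨h0, h1⟩
  rcases le_total |u| (1 / 2) with h | h
  · have h2 := sin_ge ha0 h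
    have h3 : min |u| (min |u - 1| |u + 1|) ≤ |u| := min_le_left _ _
    linarith
  · have h2 := sin_ge (v := 1 - |u|) (by linarith) (by linarith)
    have h4 : Real.sin (Real.pi * (1 - |u|)) = Real.sin (Real.pi * |u|) := by
      rw [mul_sub, mul_one, Real.sin_pi_sub]
    rw [h4] at h2
    have h3 : min |u| (min |u - 1| |u + 1|) ≤ 1 - |u| := by
      refine (min_le_right _ _).trans ?_
      rcases le_total 0 u with h5 | h5
      · refine (min_le_left _ _).trans ?_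
        rw [abs_of_nonneg h5, abs_of_nonpos (by linarith)]
        linarith
      · refine (min_le_right _ _).trans ?_
        rw [abs_of_nonpos h5, abs_of_nonneg (by linarith)]
        linarith
    linarith

lemma ll_sq_le {u : ℝ} (h0 : -1 ≤ u) (h1 : u ≤ 1) (h : ee u ≠ 1) :
    (ll u) ^ 2 ≤ 16 * (hh u + hh (u - 1) + hh (u + 1)) := by
  have hx := norm_pos h
  refine (log_sq_le hx (norm_le_two u)).trans ?_
  have hu : u ≠ 0 := by rintro rfl; exact h ee_zero
  have hu1 : u - 1 ≠ 0 := by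
    intro h2
    have : u = ((1 : ℤ) : ℝ) := by push_cast; linarith
    exact h (this ▸ ee_int 1)
  have hu2 : u + 1 ≠ 0 := by
    intro h2
    have : u = ((-1 : ℤ) : ℝ) := by push_cast; linarith
    exact h (this ▸ ee_int (-1))
  have hl := norm_lower h0 h1
  set m := min |u| (min |u - 1| |u + 1|) with hm
  have hm0 : 0 < m := lt_min (abs_pos.2 hu) (lt_min (abs_pos.2 hu1) (abs_pos.2 hu2))
  have h2 : ‖1 - ee u‖ ^ (-(1 / 2) : ℝ) ≤ m ^ (-(1 / 2) : ℝ) :=
    Real.rpow_le_rpow_of_nonpos hm0 (by linarith) (by norm_num)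
  have h3 : m ^ (-(1 / 2) : ℝ) ≤ hh u + hh (u - 1) + hh (u + 1) := by
    have a1 := hh_nonneg u
    have a2 := hh_nonneg (u - 1)
    have a3 := hh_nonneg (u + 1)
    rcases min_choice |u| (min |u - 1| |u + 1|) with h4 | h4
    · rw [hm, h4]; unfold hh at *; linarith
    · rcases min_choice |u - 1| |u + 1| with h5 | h5
      · rw [hm, h4, h5]; unfold hh at *; linarith
      · rw [hm, h4, h5]; unfold hh at *; linarith
  linarith

lemma sq_integrable {r : ℝ} (h0 : 0 ≤ r) (h1 : r ≤ 1) :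
    IntegrableOn (fun t : ℝ => (ll (r - t)) ^ 2) (Ioc 0 1) := by
  have hG : IntegrableOn (fun t : ℝ => 16 * (hh (t - r) + hh (t - (r - 1)) + hh (t - (r + 1)))) (Ioc 0 1) :=
    (intervalIntegrable_iff_integrableOn_Ioc_of_le zero_le_one).1
      ((((hh_shift r 0 1).add (hh_shift (r - 1) 0 1)).add (hh_shift (r + 1) 0 1)).const_mul 16)
  refine Integrable.mono' hG ((meas_ll r).pow_const 2).aestronglyMeasurable ?_
  have hae : ∀ᵐ t ∂(volume.restrict (Ioc (0 : ℝ) 1)), ee (r - t) ≠ 1 := ae_restrict_of_ae (ae_ne r)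
  filter_upwards [hae, ae_restrict_mem measurableSet_Ioc] with t ht hmem
  rw [Real.norm_of_nonneg (by positivity)]
  refine (ll_sq_le (by linarith [hmem.2]) (by linarith [hmem.1]) ht).trans (le_of_eq ?_)
  have e : ∀ y : ℝ, hh y = hh (-y) := fun y => by simp [hh]
  rw [e (r - t), e (r - t - 1), e (r - t + 1)]
  congr 1
  rw [show -(r - t) = t - r by ring, show -(r - t - 1) = t - (r - 1) by ring,
    show -(r - t + 1) = t - (r + 1) by ring]

lemma abs_integrable {r : ℝ} (h0 : 0 ≤ r) (h1 : r ≤ 1) :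
    IntegrableOn (fun t : ℝ => ll (r - t)) (Ioc 0 1) := by
  have hG : IntegrableOn (fun t : ℝ => (ll (r - t)) ^ 2 + 1) (Ioc 0 1) :=
    (sq_integrable h0 h1).add (integrableOn_const (by simp))
  refine Integrable.mono' hG (meas_ll r).aestronglyMeasurable (Eventually.of_forall fun t => ?_)
  rw [Real.norm_eq_abs]
  nlinarith [sq_nonneg (|ll (r - t)| - 1), sq_abs (ll (r - t)), abs_nonneg (ll (r - t))]

/-- **The Fourier coefficients of `log |1 - e(r - t)|`.** -/
theorem coef_ll {r : ℝ} (h0 : 0 ≤ r) (h1 : r ≤ 1) (k : ℤ) :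
    ∫ t in (0 : ℝ)..1, ((ll (r - t) : ℝ) : ℂ) * ee (-(k * t)) =
      if k = 0 then 0 else -(((1 / (2 * |(k : ℝ)|) : ℝ)) : ℂ) * ee (-(k * r)) := by
  have hlim : Tendsto (fun j : ℕ => ∫ t in (0 : ℝ)..1,
      ((Real.log ‖1 - (((1 - 1 / ((j : ℝ) + 1) : ℝ)) : ℂ) * ee (r - t)‖ : ℝ) : ℂ) * ee (-(k * t))) atTop
      (𝓝 (∫ t in (0 : ℝ)..1, ((ll (r - t) : ℝ) : ℂ) * ee (-(k * t)))) := by
    have hρ0 : ∀ j : ℕ, 0 ≤ 1 - 1 / ((j : ℝ) + 1) := fun j => by
      rw [sub_nonneg, div_le_one (by positivity)]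
      have : (0 : ℝ) ≤ j := Nat.cast_nonneg j
      linarith
    have hρ1 : ∀ j : ℕ, 1 - 1 / ((j : ℝ) + 1) < 1 := fun j => by
      have : 0 < 1 / ((j : ℝ) + 1) := by positivity
      linarith
    refine intervalIntegral.tendsto_integral_filter_of_dominated_convergence
      (fun t => |ll (r - t)| + Real.log 2) ?_ ?_ ?_ ?_
    · refine Eventually.of_forall fun j => ?_
      have hc : Continuous fun t : ℝ => ‖1 - (((1 - 1 / ((j : ℝ) + 1) : ℝ)) : ℂ) * ee (r - t)‖ := by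
        fun_prop
      have hm : Measurable fun t : ℝ =>
          ((Real.log ‖1 - (((1 - 1 / ((j : ℝ) + 1) : ℝ)) : ℂ) * ee (r - t)‖ : ℝ) : ℂ) :=
        Complex.measurable_ofReal.comp (Real.measurable_log.comp hc.measurable)
      have hm2 : Continuous fun t : ℝ => ee (-(k * t)) := by fun_prop
      exact (hm.mul hm2.measurable).aestronglyMeasurable
    · refine Eventually.of_forall fun j => ?_
      filter_upwards [ae_ne r] with t ht _
      rw [norm_mul, ee_norm, mul_one, Complex.norm_real, Real.norm_eq_abs]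
      exact rho_dom (hρ0 j) (hρ1 j) ht
    · have h2 := (intervalIntegrable_iff_integrableOn_Ioc_of_le zero_le_one).2 (abs_integrable h0 h1)
      exact h2.abs.add intervalIntegrable_const
    · filter_upwards [ae_ne r] with t ht _
      have h3 : Tendsto (fun j : ℕ => (1 - 1 / ((j : ℝ) + 1) : ℝ)) atTop (𝓝 1) := by
        have := tendsto_one_div_add_atTop_nhds_zero_nat (𝕜 := ℝ)
        simpa using this.const_sub 1
      have h4 : Tendsto (fun j : ℕ => ‖1 - (((1 - 1 / ((j : ℝ) + 1) : ℝ)) : ℂ) * ee (r - t)‖) atTop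
          (𝓝 ‖1 - ee (r - t)‖) := by
        have h5 : Continuous fun ρ : ℝ => ‖1 - (ρ : ℂ) * ee (r - t)‖ := by fun_prop
        have h6 := (h5.tendsto 1).comp h3
        have e : ‖1 - (((1 : ℝ)) : ℂ) * ee (r - t)‖ = ‖1 - ee (r - t)‖ := by rw [Complex.ofReal_one, one_mul]
        rw [e] at h6
        exact h6
      have h7 := (Real.continuousAt_log (norm_pos ht).ne').tendsto.comp h4
      exact ((Complex.continuous_ofReal.tendsto _).comp h7).mul_const _
  have hlim2 : Tendsto (fun j : ℕ => ∫ t in (0 : ℝ)..1,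
      ((Real.log ‖1 - (((1 - 1 / ((j : ℝ) + 1) : ℝ)) : ℂ) * ee (r - t)‖ : ℝ) : ℂ) * ee (-(k * t))) atTop
      (𝓝 (if k = 0 then 0 else -(((1 / (2 * |(k : ℝ)|) : ℝ)) : ℂ) * ee (-(k * r)))) := by
    have hρ0 : ∀ j : ℕ, 0 ≤ 1 - 1 / ((j : ℝ) + 1) := fun j => by
      rw [sub_nonneg, div_le_one (by positivity)]
      have : (0 : ℝ) ≤ j := Nat.cast_nonneg j
      linarith
    have hρ1 : ∀ j : ℕ, 1 - 1 / ((j : ℝ) + 1) < 1 := fun j => by
      have : 0 < 1 / ((j : ℝ) + 1) := by positivity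
      linarith
    simp only [fun j : ℕ => coef_rho (hρ0 j) (hρ1 j) r k]
    split_ifs with hk
    · exact tendsto_const_nhds
    · have h3 : Tendsto (fun j : ℕ => (1 - 1 / ((j : ℝ) + 1) : ℝ)) atTop (𝓝 1) := by
        have := tendsto_one_div_add_atTop_nhds_zero_nat (𝕜 := ℝ)
        simpa using this.const_sub 1
      have h5 : Continuous fun ρ : ℝ => -(((ρ ^ k.natAbs / (2 * |(k : ℝ)|) : ℝ)) : ℂ) * ee (-(k * r)) := by
        fun_prop
      have h6 := (h5.tendsto 1).comp h3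
      rw [one_pow] at h6
      exact h6
  exact tendsto_nhds_unique hlim hlim2

end

end Pool.Agent.TH803.CH
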