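import Pool.Agent.TH803.CH.Loc
import Pool.Agent.H295R2.T1loc

set_option autoImplicit false

/-! # Exact exponents -/

open MeasureTheory Filter Topology Set Complex
open Pool.Agent.H295R2
open scoped ContDiff

namespace Pool.Agent.TH803.CH

noncomputable section

lemma GG_sq_ii (n : ℕ) : IntervalIntegrable (fun t => GG n t ^ 2) volume 0 1 :=
  (intervalIntegrable_iff_integrableOn_Ioc_of_le zero_le_one).2 (GG_sq n)

lemma GG_abs_ii (n : ℕ) : IntervalIntegrable (fun t => |GG n t|) volume 0 1 :=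
  (intervalIntegrable_iff_integrableOn_Ioc_of_le zero_le_one).2 (GG_int n).abs

/-- the upper bound in terms of a bound for `M` -/
lemma GG_sq_of_mertens {σ C : ℝ} (hσ : 1/2 < σ) (hC : 0 < C) (h : ∀ y : ℝ, 1 ≤ y → |Mx y| ≤ C * y ^ σ) :
    ∃ K > 0, ∀ n : ℕ, 1 ≤ n → ∫ t in (0 : ℝ)..1, GG n t ^ 2 ≤ K * ((n : ℝ) ^ σ) ^ 2 := by
  obtain ⟨K, hK, hb⟩ := Ef_sq_bound hσ hC h
  refine ⟨Real.pi ^ 2 * K, by positivity, fun n hn => ?_⟩
  refine (GG_sq_le hn).trans ?_
  rw [mul_assoc]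
  exact mul_le_mul_of_nonneg_left (hb n hn) (by positivity)

lemma L1_of_sq {n : ℕ} {l : ℝ} (hl : 0 < l) :
    ∫ t in (0 : ℝ)..1, |GG n t| ≤ l / 2 + (∫ t in (0 : ℝ)..1, GG n t ^ 2) / (2 * l) := by
  have h1 : ∫ t in (0 : ℝ)..1, |GG n t| ≤ ∫ t in (0 : ℝ)..1, (l / 2 + GG n t ^ 2 / (2 * l)) := by
    refine intervalIntegral.integral_mono_on zero_le_one (GG_abs_ii n)
      (intervalIntegrable_const.add ((GG_sq_ii n).div_const _)) fun t _ => ?_
    have e : l / 2 + GG n t ^ 2 / (2 * l) = (l ^ 2 + |GG n t| ^ 2) / (2 * l) := by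
      rw [sq_abs]; field_simp
    rw [e, le_div_iff₀ (by positivity)]
    nlinarith [sq_nonneg (l - |GG n t|)]
  rw [intervalIntegral.integral_add intervalIntegrable_const ((GG_sq_ii n).div_const _),
    intervalIntegral.integral_const, intervalIntegral.integral_div] at h1
  simpa using h1

theorem L2_upper {ε : ℝ} (hε : 0 < ε) :
    ∀ᶠ n : ℕ in atTop, ∫ t in (0 : ℝ)..1, GG n t ^ 2 ≤ (n : ℝ) ^ (2 * zetaSup + ε) := by
  obtain ⟨σ, hσ0, hσ1, hσ2, hσ3, C, hC0, hC⟩ := mertens_sup (e := ε / 4) (by linarith)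
  obtain ⟨K, hK, hb⟩ := GG_sq_of_mertens hσ2 hC0 hC
  filter_upwards [rpow_eventually_ge (show 0 < ε / 2 by linarith) K, eventually_ge_atTop 1] with n h1 hn
  have hn1 : (1:ℝ) ≤ n := by exact_mod_cast hn
  have hn0 : (0:ℝ) < n := by linarith
  calc ∫ t in (0 : ℝ)..1, GG n t ^ 2 ≤ K * ((n : ℝ) ^ σ) ^ 2 := hb n hn
    _ ≤ (n : ℝ) ^ (ε / 2) * ((n : ℝ) ^ σ) ^ 2 := by gcongr
    _ = (n : ℝ) ^ (ε / 2 + σ * 2) := by
        rw [← Real.rpow_natCast ((n : ℝ) ^ σ) 2, ← Real.rpow_mul hn0.le, ← Real.rpow_add hn0]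
        norm_num
    _ ≤ (n : ℝ) ^ (2 * zetaSup + ε) := by
        apply Real.rpow_le_rpow_of_exponent_le hn1
        linarith

theorem L1_upper {ε : ℝ} (hε : 0 < ε) :
    ∀ᶠ n : ℕ in atTop, ∫ t in (0 : ℝ)..1, |GG n t| ≤ (n : ℝ) ^ (zetaSup + ε) := by
  filter_upwards [L2_upper hε, eventually_ge_atTop 1] with n h1 hn
  have hn1 : (1:ℝ) ≤ n := by exact_mod_cast hn
  have hn0 : (0:ℝ) < n := by linarith
  have h2 := L1_of_sq (n := n) (l := (n : ℝ) ^ zetaSup) (by positivity)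
  have h3 : (n : ℝ) ^ zetaSup ≤ (n : ℝ) ^ (zetaSup + ε) := by
    apply Real.rpow_le_rpow_of_exponent_le hn1
    linarith
  have h4 : (∫ t in (0 : ℝ)..1, GG n t ^ 2) / (2 * (n : ℝ) ^ zetaSup) ≤ (n : ℝ) ^ (zetaSup + ε) / 2 := by
    rw [div_le_div_iff₀ (by positivity) (by norm_num)]
    have h5 : (n : ℝ) ^ (zetaSup + ε) * (n : ℝ) ^ zetaSup = (n : ℝ) ^ (2 * zetaSup + ε) := by
      rw [← Real.rpow_add hn0]; congr 1; ring
    nlinarith
  linarith

/-- **The lower bound on arcs.** -/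
theorem arc_lower {α β : ℝ} (hα : 0 ≤ α) (hαβ : α < β) (hβ : β ≤ 1) {ε : ℝ} (hε : 0 < ε) :
    ∀ᶠ n : ℕ in atTop, (n : ℝ) ^ (zetaSup - ε) ≤ ∫ t in α..β, |GG n t| := by
  obtain ⟨r, hr1, hr2⟩ := exists_rat_btwn hαβ
  have hr0 : 0 < r := by exact_mod_cast (lt_of_le_of_lt hα hr1)
  have hr1' : r < 1 := by exact_mod_cast (lt_of_lt_of_le hr2 hβ)
  have hnum : 0 < r.num := Rat.num_pos.mpr hr0
  set p : ℕ := r.num.natAbs with hp
  set q : ℕ := r.den with hq
  have hq0 : 0 < q := r.den_pos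
  have hpnum : ((p : ℕ) : ℤ) = r.num := by rw [hp]; omega
  have hrr : (r : ℝ) = (p:ℝ) / q := by
    have h1 : (r : ℚ) = (r.num : ℚ) / (r.den : ℚ) := (Rat.num_div_den r).symm
    have h2 : (r : ℝ) = (r.num : ℝ) / (r.den : ℝ) := by exact_mod_cast h1
    rw [h2, ← hpnum]
    push_cast
    rfl
  have hpq : p < q := by
    have h1 : (p:ℝ) / q < 1 := by rw [← hrr]; exact_mod_cast hr1'
    rw [div_lt_one (by exact_mod_cast hq0)] at h1
    exact_mod_cast h1
  have hco : Nat.Coprime p q := r.reduced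
  set δ : ℝ := min ((r : ℝ) - α) (β - r) with hδdef
  have hδ : 0 < δ := lt_min (by linarith) (by linarith)
  have hδ1 : δ ≤ (r : ℝ) - α := min_le_left _ _
  have hδ2 : δ ≤ β - r := min_le_right _ _
  set γ : ℝ := min (ε / 4) (1 / 2) with hγdef
  have hγ : 0 < γ := by rw [hγdef]; apply lt_min <;> linarith
  have hγ1 : γ ≤ ε / 4 := min_le_left _ _
  have hγ2 : γ ≤ 1 / 2 := min_le_right _ _
  have hΘ1 := half_le_zetaSup
  have hΘ2 := zetaSup_le_one
  obtain ⟨φ, hφ, hcore⟩ := core hΘ1 hΘ2 zetaSup_free zetaSup_sup (p := p) (q := q) hq0 hco (γ := γ) (τ := γ / 16)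
    hγ (by linarith) (by linarith) le_rfl (by linarith)
  obtain ⟨C, hC0, hC⟩ := local_key hφ (r := (r : ℝ)) (δ := δ) hδ (by linarith) (by linarith)
  filter_upwards [hcore, L1_upper (show 0 < γ / 4 by linarith), rpow_eventually_ge hγ (2 / δ),
    rpow_eventually_ge (show 0 < γ / 2 by linarith) (2 * C), rpow_eventually_ge (show 0 < ε / 2 by linarith) (2 * C),
    eventually_ge_atTop 1] with n h1 h2 h3 h4 h5 hn
  have hn1 : (1:ℝ) ≤ n := by exact_mod_cast hn
  have hn0 : (0:ℝ) < n := by linarith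
  obtain ⟨D, hD1, hD2, hD3, hD4⟩ := h1
  have hq1 : (1 : ℝ) ≤ q := by exact_mod_cast hq0
  have hD : 1 ≤ D := by linarith
  have hD0 : 0 < D := by linarith
  rw [← farey_eq_bb hφ hpq (by linarith), ← hrr] at hD4
  have hDδ : 2 / D ≤ δ := by
    rw [div_le_iff₀ hD0]
    have := h3.trans hD1
    rw [div_le_iff₀ hδ] at this
    linarith
  have key := hD4.trans (hC n D hD hDδ)
  set P : ℝ := (n:ℝ) ^ ((1 - γ) * zetaSup - 4 * (γ / 16)) with hP
  set J : ℝ := ∫ t in ((r : ℝ) - δ)..((r : ℝ) + δ), |GG n t| with hJ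
  set T : ℝ := ∫ t in (0 : ℝ)..1, |GG n t| with hT
  have hP0 : 0 < P := by positivity
  -- the tail
  have htail : C / D * T ≤ D * P / 2 := by
    have e1 : C * T ≤ (n : ℝ) ^ (γ / 2) / 2 * (n : ℝ) ^ (zetaSup + γ / 4) := by
      have : C ≤ (n : ℝ) ^ (γ / 2) / 2 := by linarith
      have hT0 : 0 ≤ T := intervalIntegral.integral_nonneg zero_le_one fun t _ => abs_nonneg _
      gcongr
    have e2 : (n : ℝ) ^ (γ / 2) * (n : ℝ) ^ (zetaSup + γ / 4) ≤ ((n : ℝ) ^ γ) ^ 2 * P := by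
      rw [hP, ← Real.rpow_natCast ((n : ℝ) ^ γ) 2, ← Real.rpow_mul hn0.le, ← Real.rpow_add hn0, ← Real.rpow_add hn0]
      apply Real.rpow_le_rpow_of_exponent_le hn1
      push_cast
      nlinarith
    have e3 : ((n : ℝ) ^ γ) ^ 2 * P ≤ D ^ 2 * P := by gcongr
    rw [div_mul_eq_mul_div, div_le_iff₀ hD0]
    nlinarith
  have hmain : P ≤ 2 * C * J := by
    have e4 : D * P ≤ C * D * J + D * P / 2 := by linarith
    have e5 : D * P ≤ D * (2 * C * J) := by linarith
    exact le_of_mul_le_mul_left e5 hD0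
  have hJ2 : J ≤ ∫ t in α..β, |GG n t| := by
    have hsub : IntervalIntegrable (fun t => |GG n t|) volume α β := by
      refine (GG_abs_ii n).mono_set ?_
      rw [uIcc_of_le hαβ.le, uIcc_of_le zero_le_one]
      exact Icc_subset_Icc hα hβ
    refine intervalIntegral.integral_mono_interval (by linarith) (by linarith) (by linarith)
      (Eventually.of_forall fun t => abs_nonneg _) hsub
  have hJ0 : 0 ≤ J := intervalIntegral.integral_nonneg (by linarith) fun t _ => abs_nonneg _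
  have hPl : (n : ℝ) ^ (ε / 2) * (n : ℝ) ^ (zetaSup - ε) ≤ P := by
    rw [hP, ← Real.rpow_add hn0]
    apply Real.rpow_le_rpow_of_exponent_le hn1
    nlinarith
  have hfin : (n : ℝ) ^ (ε / 2) * (n : ℝ) ^ (zetaSup - ε) ≤ (n : ℝ) ^ (ε / 2) * J := by
    calc _ ≤ P := hPl
      _ ≤ 2 * C * J := hmain
      _ ≤ _ := by gcongr
  exact (le_of_mul_le_mul_left hfin (by positivity)).trans hJ2

/-- **The typical size.** -/
theorem level_set {α β : ℝ} (hα : 0 ≤ α) (hαβ : α < β) (hβ : β ≤ 1) {ε : ℝ} (hε : 0 < ε) :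
    ∀ᶠ n : ℕ in atTop, (n : ℝ) ^ (-ε) ≤
      volume.real {t : ℝ | t ∈ Ioc α β ∧ (n : ℝ) ^ (zetaSup - ε) ≤ |GG n t| ∧ |GG n t| ≤ (n : ℝ) ^ (zetaSup + ε)} := by
  filter_upwards [arc_lower hα hαβ hβ (show 0 < ε / 8 by linarith), L2_upper (show 0 < ε / 8 by linarith),
    rpow_eventually_ge (show 0 < ε / 8 by linarith) 4, eventually_ge_atTop 1] with n h1 h2 h3 hn
  have hn1 : (1:ℝ) ≤ n := by exact_mod_cast hn
  have hn0 : (0:ℝ) < n := by linarith
  set l : ℝ := (n : ℝ) ^ (zetaSup - ε) with hl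
  set L : ℝ := (n : ℝ) ^ (zetaSup + ε / 2) with hL
  set Y : ℝ := (n : ℝ) ^ (ε / 8) with hY
  have hl0 : 0 < l := by positivity
  have hL0 : 0 < L := by positivity
  set S : Set ℝ := {t : ℝ | l ≤ |GG n t| ∧ |GG n t| ≤ L} with hS
  have hmeas : Measurable fun t => |GG n t| := (GG_meas n).abs
  have hSm : MeasurableSet S := (measurableSet_le measurable_const hmeas).inter (measurableSet_le hmeas measurable_const)
  have hsub : Ioc α β ⊆ Ioc 0 1 := Ioc_subset_Ioc hα hβ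
  have hi0 : IntegrableOn (fun t => |GG n t|) (Ioc 0 1) := (GG_int n).abs
  have hi1 : IntegrableOn (fun t => |GG n t|) (Ioc α β) := hi0.mono_set hsub
  have hi2 : IntegrableOn (fun t => GG n t ^ 2) (Ioc α β) := (GG_sq n).mono_set hsub
  have hi3 : IntegrableOn (fun _ : ℝ => l) (Ioc α β) := integrableOn_const (by simp)
  have hi4 : IntegrableOn (S.indicator fun _ : ℝ => L) (Ioc α β) :=
    (integrableOn_const (by simp) : IntegrableOn (fun _ : ℝ => L) (Ioc α β)).indicator hSm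
  have hpt : ∀ t, |GG n t| ≤ l + S.indicator (fun _ : ℝ => L) t + GG n t ^ 2 / L := by
    intro t
    have hq : 0 ≤ GG n t ^ 2 / L := by positivity
    by_cases ht : t ∈ S
    · rw [indicator_of_mem ht]
      have := ht.2
      linarith
    · rw [indicator_of_notMem ht, add_zero]
      rcases le_or_gt l |GG n t| with h | h
      · have h' : L < |GG n t| := by
          by_contra hc
          push Not at hc
          exact ht ⟨h, hc⟩
        have : |GG n t| ≤ GG n t ^ 2 / L := by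
          rw [le_div_iff₀ hL0, ← sq_abs]
          nlinarith [abs_nonneg (GG n t)]
        linarith
      · linarith
  have hint : ∫ t in Ioc α β, |GG n t| ≤ l * (β - α) + L * volume.real (Ioc α β ∩ S) +
      (∫ t in Ioc α β, GG n t ^ 2) / L := by
    have h4 : ∫ t in Ioc α β, |GG n t| ≤ ∫ t in Ioc α β, (l + S.indicator (fun _ : ℝ => L) t + GG n t ^ 2 / L) :=
      integral_mono hi1 ((hi3.add hi4).add (hi2.div_const L)) hpt
    have h6 : ∫ t in Ioc α β, (l + S.indicator (fun _ : ℝ => L) t + GG n t ^ 2 / L) =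
        (∫ t in Ioc α β, (l + S.indicator (fun _ : ℝ => L) t)) + ∫ t in Ioc α β, GG n t ^ 2 / L :=
      integral_add (hi3.add hi4) (hi2.div_const L)
    have h7 : ∫ t in Ioc α β, (l + S.indicator (fun _ : ℝ => L) t) =
        (∫ _t in Ioc α β, l) + ∫ t in Ioc α β, S.indicator (fun _ : ℝ => L) t := integral_add hi3 hi4
    rw [h6, h7, integral_div, setIntegral_const, setIntegral_indicator hSm, setIntegral_const] at h4
    have h5 : volume.real (Ioc α β) = β - α := by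
      rw [Measure.real, Real.volume_Ioc, ENNReal.toReal_ofReal (by linarith)]
    rw [h5] at h4
    simp only [smul_eq_mul] at h4
    linarith
  have hsq : ∫ t in Ioc α β, GG n t ^ 2 ≤ (n : ℝ) ^ (2 * zetaSup + ε / 8) := by
    refine le_trans ?_ h2
    rw [intervalIntegral.integral_of_le zero_le_one]
    exact setIntegral_mono_set (GG_sq n) (Eventually.of_forall fun t => sq_nonneg _) (hsub.eventuallyLE)
  rw [intervalIntegral.integral_of_le hαβ.le] at h1
  -- exponents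
  set A : ℝ := (n : ℝ) ^ (zetaSup - ε / 8) with hA
  have hA0 : 0 < A := by positivity
  have e1 : l * (β - α) ≤ A / 4 := by
    have a1 : l * (β - α) ≤ l := by nlinarith
    have a2 : Y * l ≤ A := by
      rw [hY, hl, hA, ← Real.rpow_add hn0]
      apply Real.rpow_le_rpow_of_exponent_le hn1
      linarith
    nlinarith
  have e2 : (∫ t in Ioc α β, GG n t ^ 2) / L ≤ A / 4 := by
    rw [div_le_iff₀ hL0]
    refine hsq.trans ?_
    have a3 : Y * (n : ℝ) ^ (2 * zetaSup + ε / 8) ≤ A * L := by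
      rw [hY, hL, hA, ← Real.rpow_add hn0, ← Real.rpow_add hn0]
      apply Real.rpow_le_rpow_of_exponent_le hn1
      linarith
    have a4 : 0 ≤ (n : ℝ) ^ (2 * zetaSup + ε / 8) := by positivity
    nlinarith
  have e3 : A / 2 ≤ L * volume.real (Ioc α β ∩ S) := by linarith
  have e4 : (n : ℝ) ^ (-ε) ≤ volume.real (Ioc α β ∩ S) := by
    have a5 : Y * (L * (n : ℝ) ^ (-ε)) ≤ A := by
      rw [hY, hL, hA, ← Real.rpow_add hn0, ← Real.rpow_add hn0]
      apply Real.rpow_le_rpow_of_exponent_le hn1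
      linarith
    have a6 : 0 ≤ L * (n : ℝ) ^ (-ε) := by positivity
    have a7 : L * (n : ℝ) ^ (-ε) ≤ L * volume.real (Ioc α β ∩ S) := by nlinarith
    exact le_of_mul_le_mul_left a7 hL0
  refine e4.trans ?_
  refine measureReal_mono ?_ ?_
  · rintro t ⟨ht1, ht2, ht3⟩
    refine ⟨ht1, ht2, ht3.trans ?_⟩
    apply Real.rpow_le_rpow_of_exponent_le hn1
    linarith
  · refine ne_top_of_le_ne_top ?_ (measure_mono (show _ ⊆ Ioc α β from fun t ht => ht.1))
    simp

/-! ### Moments -/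

lemma pow_integrable {n : ℕ} {p : ℝ} (hp0 : 0 < p) (hp2 : p ≤ 2) :
    IntegrableOn (fun t => |GG n t| ^ p) (Ioc (0 : ℝ) 1) := by
  have hmeas : Measurable fun t => |GG n t| ^ p := (GG_meas n).abs.pow_const p
  have h0 : IntegrableOn (fun _ : ℝ => (1 : ℝ)) (Ioc (0 : ℝ) 1) := integrableOn_const (by simp)
  have h1 : IntegrableOn (fun t => 1 + GG n t ^ 2) (Ioc (0 : ℝ) 1) := h0.add (GG_sq n)
  refine Integrable.mono' h1 hmeas.aestronglyMeasurable (Eventually.of_forall fun t => ?_)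
  rw [Real.norm_of_nonneg (by positivity)]
  rcases le_total |GG n t| 1 with h | h
  · have := Real.rpow_le_one (abs_nonneg (GG n t)) h hp0.le
    nlinarith [sq_nonneg (GG n t)]
  · have h1 : |GG n t| ^ p ≤ |GG n t| ^ (2 : ℝ) := Real.rpow_le_rpow_of_exponent_le h hp2
    have h2 : |GG n t| ^ (2 : ℝ) = GG n t ^ 2 := by
      rw [Real.rpow_two, sq_abs]
    linarith

theorem moment_upper {p : ℝ} (hp0 : 0 < p) (hp2 : p ≤ 2) {ε : ℝ} (hε : 0 < ε) :
    ∀ᶠ n : ℕ in atTop, ∫ t in (0 : ℝ)..1, |GG n t| ^ p ≤ (n : ℝ) ^ (p * zetaSup + ε) := by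
  filter_upwards [L2_upper (show 0 < ε / 2 by linarith), rpow_eventually_ge (show 0 < ε / 2 by linarith) 2,
    eventually_ge_atTop 1] with n h2 h3 hn
  have hn1 : (1:ℝ) ≤ n := by exact_mod_cast hn
  have hn0 : (0:ℝ) < n := by linarith
  set l : ℝ := (n : ℝ) ^ zetaSup with hl
  have hl0 : 0 < l := by positivity
  have hpt : ∀ t, |GG n t| ^ p ≤ l ^ p + l ^ (p - 2) * GG n t ^ 2 := by
    intro t
    rcases le_or_gt |GG n t| l with h | h
    · have h4 : |GG n t| ^ p ≤ l ^ p := Real.rpow_le_rpow (abs_nonneg _) h hp0.le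
      have : 0 ≤ l ^ (p - 2) * GG n t ^ 2 := by positivity
      linarith
    · have hg0 : 0 < |GG n t| := hl0.trans h
      have h4 : |GG n t| ^ p = |GG n t| ^ (p - 2) * GG n t ^ 2 := by
        rw [← sq_abs, ← Real.rpow_two, ← Real.rpow_add hg0]
        congr 1; ring
      have h5 : |GG n t| ^ (p - 2) ≤ l ^ (p - 2) := Real.rpow_le_rpow_of_nonpos hl0 h.le (by linarith)
      have h6 : 0 ≤ l ^ p := by positivity
      rw [h4]
      nlinarith [sq_nonneg (GG n t)]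
  have hint : ∫ t in (0 : ℝ)..1, |GG n t| ^ p ≤ l ^ p + l ^ (p - 2) * ∫ t in (0 : ℝ)..1, GG n t ^ 2 := by
    rw [intervalIntegral.integral_of_le zero_le_one, intervalIntegral.integral_of_le zero_le_one]
    have h0 : IntegrableOn (fun _ : ℝ => l ^ p) (Ioc (0 : ℝ) 1) := integrableOn_const (by simp)
    have h1 : IntegrableOn (fun t => l ^ (p - 2) * GG n t ^ 2) (Ioc (0 : ℝ) 1) := (GG_sq n).const_mul _
    have h4 : ∫ t in Ioc (0 : ℝ) 1, |GG n t| ^ p ≤ ∫ t in Ioc (0 : ℝ) 1, (l ^ p + l ^ (p - 2) * GG n t ^ 2) :=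
      integral_mono (pow_integrable hp0 hp2) (h0.add h1) hpt
    rw [integral_add h0 h1, integral_const_mul, setIntegral_const] at h4
    simpa using h4
  refine hint.trans ?_
  have a1 : l ^ p = (n : ℝ) ^ (p * zetaSup) := by
    rw [hl, ← Real.rpow_mul hn0.le, mul_comm]
  have a2 : l ^ (p - 2) * (n : ℝ) ^ (2 * zetaSup + ε / 2) = (n : ℝ) ^ (p * zetaSup + ε / 2) := by
    rw [hl, ← Real.rpow_mul hn0.le, ← Real.rpow_add hn0]
    congr 1; ring
  have a3 : (n : ℝ) ^ (p * zetaSup) ≤ (n : ℝ) ^ (p * zetaSup + ε / 2) := by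
    apply Real.rpow_le_rpow_of_exponent_le hn1
    linarith
  calc l ^ p + l ^ (p - 2) * ∫ t in (0 : ℝ)..1, GG n t ^ 2
      ≤ l ^ p + l ^ (p - 2) * (n : ℝ) ^ (2 * zetaSup + ε / 2) := by gcongr
    _ ≤ 2 * (n : ℝ) ^ (p * zetaSup + ε / 2) := by rw [a1, a2]; linarith
    _ ≤ (n : ℝ) ^ (ε / 2) * (n : ℝ) ^ (p * zetaSup + ε / 2) := by gcongr
    _ = (n : ℝ) ^ (p * zetaSup + ε) := by
        rw [← Real.rpow_add hn0]; congr 1; ring

theorem moment_lower {α β : ℝ} (hα : 0 ≤ α) (hαβ : α < β) (hβ : β ≤ 1) {p : ℝ} (hp0 : 0 < p) (hp2 : p ≤ 2)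
    {ε : ℝ} (hε : 0 < ε) :
    ∀ᶠ n : ℕ in atTop, (n : ℝ) ^ (p * zetaSup - ε) ≤ ∫ t in α..β, |GG n t| ^ p := by
  filter_upwards [level_set hα hαβ hβ (show 0 < ε / 4 by linarith), eventually_ge_atTop 1] with n h1 hn
  have hn1 : (1:ℝ) ≤ n := by exact_mod_cast hn
  have hn0 : (0:ℝ) < n := by linarith
  set l : ℝ := (n : ℝ) ^ (zetaSup - ε / 4) with hl
  have hl0 : 0 < l := by positivity
  have hsub : Ioc α β ⊆ Ioc 0 1 := Ioc_subset_Ioc hα hβ
  have hi : IntegrableOn (fun t => |GG n t| ^ p) (Ioc α β) := (pow_integrable hp0 hp2).mono_set hsub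
  have h2 := mul_meas_ge_le_integral_of_nonneg (μ := volume.restrict (Ioc α β)) (f := fun t => |GG n t| ^ p)
    (Eventually.of_forall fun t => by positivity) hi (l ^ p)
  rw [intervalIntegral.integral_of_le hαβ.le]
  refine le_trans ?_ h2
  have h3 : volume.real {t : ℝ | t ∈ Ioc α β ∧ l ≤ |GG n t| ∧ |GG n t| ≤ (n : ℝ) ^ (zetaSup + ε / 4)} ≤
      (volume.restrict (Ioc α β)).real {x | l ^ p ≤ |GG n x| ^ p} := by
    have hm : MeasurableSet {x | l ^ p ≤ |GG n x| ^ p} :=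
      measurableSet_le measurable_const ((GG_meas n).abs.pow_const p)
    rw [Measure.real, Measure.real, Measure.restrict_apply hm]
    refine ENNReal.toReal_mono ?_ (measure_mono ?_)
    · refine ne_top_of_le_ne_top ?_ (measure_mono (inter_subset_right))
      simp
    · rintro t ⟨a, b, c⟩
      exact ⟨Real.rpow_le_rpow hl0.le b hp0.le, a⟩
  calc (n : ℝ) ^ (p * zetaSup - ε) ≤ (n : ℝ) ^ ((zetaSup - ε / 4) * p + -(ε / 4)) := by
        apply Real.rpow_le_rpow_of_exponent_le hn1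
        nlinarith
    _ = l ^ p * (n : ℝ) ^ (-(ε / 4)) := by
        rw [hl, ← Real.rpow_mul hn0.le, ← Real.rpow_add hn0]
    _ ≤ l ^ p * (volume.restrict (Ioc α β)).real {x | l ^ p ≤ |GG n x| ^ p} := by
        gcongr
        exact h1.trans h3

theorem moment_limit {α β : ℝ} (hα : 0 ≤ α) (hαβ : α < β) (hβ : β ≤ 1) {p : ℝ} (hp0 : 0 < p) (hp2 : p ≤ 2) :
    Tendsto (fun n : ℕ => Real.log (∫ t in α..β, |GG n t| ^ p) / Real.log n) atTop (𝓝 (p * zetaSup)) := by
  refine log_limit (fun ε hε => moment_lower hα hαβ hβ hp0 hp2 hε) fun ε hε => ?_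
  filter_upwards [moment_upper hp0 hp2 hε] with n hn
  refine le_trans ?_ hn
  rw [intervalIntegral.integral_of_le hαβ.le, intervalIntegral.integral_of_le zero_le_one]
  exact setIntegral_mono_set (pow_integrable hp0 hp2) (Eventually.of_forall fun t => by positivity)
    (Ioc_subset_Ioc hα hβ).eventuallyLE

/-! ### The positive part -/

lemma int_GG (n : ℕ) : ∫ t in (0 : ℝ)..1, GG n t = 0 := by
  have h := coef_GG n 0
  rw [if_pos rfl] at h
  have e : ∫ t in (0 : ℝ)..1, ((GG n t : ℝ) : ℂ) * ee (-(((0 : ℤ) : ℝ) * t)) = ((∫ t in (0 : ℝ)..1, GG n t : ℝ) : ℂ) := by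
    rw [← intervalIntegral.integral_ofReal]
    refine intervalIntegral.integral_congr fun t _ => ?_
    simp [ee_zero]
  rw [e] at h
  exact_mod_cast h

lemma int_pos (n : ℕ) : ∫ t in (0 : ℝ)..1, max 0 (GG n t) = (∫ t in (0 : ℝ)..1, |GG n t|) / 2 := by
  have e : (fun t => max 0 (GG n t)) = fun t => (|GG n t| + GG n t) / 2 := by
    funext t
    rcases le_total 0 (GG n t) with h | h
    · rw [max_eq_right h, abs_of_nonneg h]; ring
    · rw [max_eq_left h, abs_of_nonpos h]; ring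
  have hi : IntervalIntegrable (GG n) volume 0 1 := (intervalIntegrable_iff_integrableOn_Ioc_of_le zero_le_one).2 (GG_int n)
  rw [e, intervalIntegral.integral_div, intervalIntegral.integral_add (GG_abs_ii n) hi, int_GG, add_zero]

end

end Pool.Agent.TH803.CH
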