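import Mathlib

set_option autoImplicit false

/-! # The Fourier coefficients of `log |1 - e(r - t)|` -/

open MeasureTheory Filter Topology Set Complex

namespace Pool.Agent.TH803.CH

noncomputable section

/-- `e(t) = exp (2 π i t)` -/
def ee (t : ℝ) : ℂ := Complex.exp (((2 * Real.pi * t : ℝ) : ℂ) * I)

lemma ee_norm (t : ℝ) : ‖ee t‖ = 1 := Complex.norm_exp_ofReal_mul_I _

lemma ee_ne (t : ℝ) : ee t ≠ 0 := Complex.exp_ne_zero _

lemma ee_add (s t : ℝ) : ee (s + t) = ee s * ee t := by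
  unfold ee
  rw [← Complex.exp_add]
  congr 1
  push_cast
  ring

lemma ee_zero : ee 0 = 1 := by simp [ee]

lemma ee_neg (t : ℝ) : ee (-t) = (ee t)⁻¹ := by
  apply eq_inv_of_mul_eq_one_left
  rw [← ee_add, neg_add_cancel, ee_zero]

lemma ee_sub (s t : ℝ) : ee (s - t) = ee s * (ee t)⁻¹ := by
  rw [sub_eq_add_neg, ee_add, ee_neg]

lemma ee_int (k : ℤ) : ee k = 1 := by
  unfold ee
  rw [Complex.exp_eq_one_iff]
  exact ⟨k, by push_cast; ring⟩

lemma ee_eq_one {t : ℝ} (h : ee t = 1) : ∃ k : ℤ, t = k := by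
  unfold ee at h
  rw [Complex.exp_eq_one_iff] at h
  obtain ⟨k, hk⟩ := h
  refine ⟨k, ?_⟩
  have hpi : (Real.pi : ℂ) ≠ 0 := by exact_mod_cast Real.pi_ne_zero
  have h1 : ((2 * Real.pi * t : ℝ) : ℂ) * I = ((2 * Real.pi * k : ℝ) : ℂ) * I := by
    rw [hk]; push_cast; ring
  have h2 := mul_right_cancel₀ I_ne_zero h1
  have h3 : 2 * Real.pi * t = 2 * Real.pi * k := by exact_mod_cast h2
  have h4 : (2 * Real.pi) ≠ 0 := by positivity
  exact mul_left_cancel₀ h4 h3

lemma ee_conj (t : ℝ) : (starRingEnd ℂ) (ee t) = ee (-t) := by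
  unfold ee
  rw [← Complex.exp_conj, map_mul, Complex.conj_ofReal, Complex.conj_I]
  congr 1
  push_cast
  ring

lemma ee_pow (t : ℝ) (m : ℕ) : ee t ^ m = ee (m * t) := by
  unfold ee
  rw [← Complex.exp_nat_mul]
  congr 1
  push_cast
  ring

@[fun_prop] lemma ee_cont : Continuous ee := by
  unfold ee
  fun_prop

lemma int_ee {k : ℤ} (hk : k ≠ 0) : ∫ t in (0 : ℝ)..1, ee (k * t) = 0 := by
  have hk' : (k : ℂ) ≠ 0 := by exact_mod_cast hk
  have hpi : (Real.pi : ℂ) ≠ 0 := by exact_mod_cast Real.pi_ne_zero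
  have hc : (2 * Real.pi * k * I : ℂ) ≠ 0 :=
    mul_ne_zero (mul_ne_zero (mul_ne_zero two_ne_zero hpi) hk') I_ne_zero
  have e1 : (fun t : ℝ => ee (k * t)) = fun t : ℝ => Complex.exp ((2 * Real.pi * k * I : ℂ) * t) := by
    funext t
    unfold ee
    congr 1
    push_cast
    ring
  rw [e1, integral_exp_mul_complex hc]
  have h1 := ee_int k
  unfold ee at h1
  have e2 : (2 * Real.pi * k * I : ℂ) * ((1 : ℝ) : ℂ) = ((2 * Real.pi * (k : ℝ) : ℝ) : ℂ) * I := by
    push_cast; ring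
  rw [e2, h1]
  simp

lemma int_ee' (k : ℤ) : ∫ t in (0 : ℝ)..1, ee (k * t) = if k = 0 then 1 else 0 := by
  split_ifs with h
  · subst h
    simp [ee_zero]
  · exact int_ee h

/-- the terms of the series of `log |1 - ρ e(r - t)| e(-kt)` -/
def Fm (ρ r : ℝ) (k : ℤ) (m : ℕ) (t : ℝ) : ℂ :=
  -((((((ρ : ℂ) * ee (r - t)) ^ m / m).re : ℝ)) : ℂ) * ee (-(k * t))

lemma Fm_eq (ρ r : ℝ) (k : ℤ) (m : ℕ) (t : ℝ) : Fm ρ r k m t =
    -(((ρ ^ m / (2 * m) : ℝ) : ℂ)) * (ee (m * r) * ee (((-(m + k) : ℤ) : ℝ) * t) +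
      ee (-(m * r)) * ee ((((m : ℤ) - k : ℤ) : ℝ) * t)) := by
  unfold Fm
  have h1 : ((ρ : ℂ) * ee (r - t)) ^ m / m = ((ρ ^ m / m : ℝ) : ℂ) * ee (m * (r - t)) := by
    rw [mul_pow, ee_pow]
    push_cast
    ring
  rw [h1, Complex.re_ofReal_mul]
  have h2 : ((ee (m * (r - t))).re : ℂ) = (ee (m * (r - t)) + ee (-(m * (r - t)))) / 2 := by
    rw [← ee_conj]
    exact Complex.re_eq_add_conj _
  push_cast
  rw [h2]
  have e1 : ee (m * (r - t)) = ee (m * r) * ee (-(m * t)) := by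
    rw [← ee_add]; congr 1; ring
  have e2 : ee (-(m * (r - t))) = ee (-(m * r)) * ee (m * t) := by
    rw [← ee_add]; congr 1; ring
  have e3 : ee ((-((k : ℝ) + m) : ℝ) * t) = ee (-(m * t)) * ee (-(k * t)) := by
    rw [← ee_add]; congr 1; ring
  have e4 : ee ((((m : ℝ)) - k) * t) = ee (m * t) * ee (-(k * t)) := by
    rw [← ee_add]; congr 1; ring
  have e5 : (-((m : ℝ) + k) : ℝ) = (-((k : ℝ) + m) : ℝ) := by ring
  rw [e1, e2]
  rw [show ((-((m : ℝ) + (k : ℝ))) * t) = (-((k : ℝ) + m) : ℝ) * t by ring, e3, e4]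
  ring

lemma int_Fm (ρ r : ℝ) (k : ℤ) (m : ℕ) : ∫ t in (0 : ℝ)..1, Fm ρ r k m t =
    -(((ρ ^ m / (2 * m) : ℝ) : ℂ)) * (ee (m * r) * (if (m : ℤ) + k = 0 then 1 else 0) +
      ee (-(m * r)) * (if (m : ℤ) - k = 0 then 1 else 0)) := by
  have e : (fun t => Fm ρ r k m t) = fun t =>
    -(((ρ ^ m / (2 * m) : ℝ) : ℂ)) * (ee (m * r) * ee (((-(m + k) : ℤ) : ℝ) * t) +
      ee (-(m * r)) * ee ((((m : ℤ) - k : ℤ) : ℝ) * t)) := funext fun t => Fm_eq ρ r k m t
  rw [e, intervalIntegral.integral_const_mul, intervalIntegral.integral_add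
    (Continuous.intervalIntegrable (by fun_prop) _ _) (Continuous.intervalIntegrable (by fun_prop) _ _),
    intervalIntegral.integral_const_mul, intervalIntegral.integral_const_mul, int_ee', int_ee']
  congr 3
  congr 1
  simp only [neg_eq_zero]

lemma one_sub_ne {ρ : ℝ} (h0 : 0 ≤ ρ) (h1 : ρ < 1) (u : ℝ) : ‖(ρ : ℂ) * ee u‖ < 1 := by
  rw [norm_mul, ee_norm, mul_one, Complex.norm_real, Real.norm_of_nonneg h0]
  exact h1

lemma coef_rho {ρ : ℝ} (h0 : 0 ≤ ρ) (h1 : ρ < 1) (r : ℝ) (k : ℤ) :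
    ∫ t in (0 : ℝ)..1, ((Real.log ‖1 - (ρ : ℂ) * ee (r - t)‖ : ℝ) : ℂ) * ee (-(k * t)) =
      if k = 0 then 0 else -(((ρ ^ k.natAbs / (2 * |(k : ℝ)|) : ℝ)) : ℂ) * ee (-(k * r)) := by
  have hs : HasSum (fun m : ℕ => ∫ t in (0 : ℝ)..1, Fm ρ r k m t)
      (∫ t in (0 : ℝ)..1, ((Real.log ‖1 - (ρ : ℂ) * ee (r - t)‖ : ℝ) : ℂ) * ee (-(k * t))) := by
    refine intervalIntegral.hasSum_integral_of_dominated_convergence (fun m _ => ρ ^ m) ?_ ?_ ?_ ?_ ?_
    · intro m
      have : Continuous (Fm ρ r k m) := by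
        have e : Fm ρ r k m = fun t =>
          -(((ρ ^ m / (2 * m) : ℝ) : ℂ)) * (ee (m * r) * ee (((-(m + k) : ℤ) : ℝ) * t) +
            ee (-(m * r)) * ee ((((m : ℤ) - k : ℤ) : ℝ) * t)) := funext fun t => Fm_eq ρ r k m t
        rw [e]
        fun_prop
      exact this.aestronglyMeasurable
    · intro m
      refine Eventually.of_forall fun t _ => ?_
      unfold Fm
      rw [norm_mul, ee_norm, mul_one, norm_neg, Complex.norm_real, Real.norm_eq_abs]
      refine (Complex.abs_re_le_norm _).trans ?_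
      rw [norm_div, norm_pow, norm_mul, ee_norm, mul_one, Complex.norm_real, Real.norm_of_nonneg h0,
        Complex.norm_natCast]
      rcases Nat.eq_zero_or_pos m with hm | hm
      · subst hm; simp
      · exact div_le_self (by positivity) (by exact_mod_cast hm)
    · exact Eventually.of_forall fun t _ => summable_geometric_of_lt_one h0 h1
    · exact intervalIntegrable_const
    · refine Eventually.of_forall fun t _ => ?_
      have h2 := Complex.hasSum_taylorSeries_neg_log (one_sub_ne h0 h1 (r - t))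
      have h3 := Complex.hasSum_re h2
      have h4 := (Complex.hasSum_ofReal.2 h3).neg.mul_right (ee (-(k * t)))
      have e : -(((-Complex.log (1 - (ρ : ℂ) * ee (r - t))).re : ℝ) : ℂ) =
          ((Real.log ‖1 - (ρ : ℂ) * ee (r - t)‖ : ℝ) : ℂ) := by
        rw [Complex.neg_re, Complex.log_re]
        push_cast
        ring
      rw [e] at h4
      exact h4
  rw [← hs.tsum_eq]
  split_ifs with hk
  · subst hk
    have : ∀ m : ℕ, ∫ t in (0 : ℝ)..1, Fm ρ r 0 m t = 0 := by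
      intro m
      rw [int_Fm]
      rcases Nat.eq_zero_or_pos m with hm | hm
      · subst hm; simp
      · rw [if_neg (by omega), if_neg (by omega), mul_zero, mul_zero, add_zero, mul_zero]
    rw [tsum_congr this, tsum_zero]
  · rw [tsum_eq_single k.natAbs, int_Fm]
    · rcases lt_or_gt_of_ne hk with h | h
      · have e1 : (k.natAbs : ℤ) = -k := by omega
        have e2 : (k.natAbs : ℤ) + k = 0 := by omega
        have e3 : (k.natAbs : ℤ) - k ≠ 0 := by omega
        have e4 : (k.natAbs : ℝ) = -(k : ℝ) := by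
          have := congrArg (fun z : ℤ => (z : ℝ)) e1
          simpa only [Int.cast_natCast, Int.cast_neg] using this
        have e5 : |(k : ℝ)| = -(k : ℝ) := abs_of_neg (by exact_mod_cast h)
        rw [if_pos e2, if_neg e3, e4, e5, mul_zero, add_zero, mul_one]
        congr 2
        ring
      · have e1 : (k.natAbs : ℤ) = k := by omega
        have e2 : (k.natAbs : ℤ) + k ≠ 0 := by omega
        have e3 : (k.natAbs : ℤ) - k = 0 := by omega
        have e4 : (k.natAbs : ℝ) = (k : ℝ) := by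
          have := congrArg (fun z : ℤ => (z : ℝ)) e1
          simpa only [Int.cast_natCast] using this
        have e5 : |(k : ℝ)| = (k : ℝ) := abs_of_pos (by exact_mod_cast h)
        rw [if_neg e2, if_pos e3, e4, e5, mul_zero, zero_add, mul_one]
    · intro m hm
      rw [int_Fm]
      have e2 : (m : ℤ) + k ≠ 0 := by omega
      have e3 : (m : ℤ) - k ≠ 0 := by omega
      rw [if_neg e2, if_neg e3]
      simp

end

end Pool.Agent.TH803.CH
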