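import Pool.Agent.TH803.CH.Dom
import Pool.Agent.H295R2.T7

set_option autoImplicit false

/-! # The function `log |F_n(e(t))|` : Fourier coefficients and the `L²` bound -/

open MeasureTheory Filter Topology Set Complex
open Pool.Agent.H295R2

namespace Pool.Agent.TH803.CH

noncomputable section

/-- `log |F_n(e(t))|` (up to a null set) -/
def GG (n : ℕ) (t : ℝ) : ℝ := ∑ x ∈ farey n, ll ((x : ℝ) - t)

lemma farey_real {n : ℕ} {x : ℚ} (hx : x ∈ farey n) : 0 ≤ (x : ℝ) ∧ (x : ℝ) ≤ 1 := by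
  rw [mem_farey] at hx
  refine ⟨by exact_mod_cast hx.1.le, by exact_mod_cast hx.2.1⟩

lemma GG_meas (n : ℕ) : Measurable (GG n) := by
  unfold GG
  exact Finset.measurable_sum _ fun x _ => meas_ll (x : ℝ)

lemma GG_memLp (n : ℕ) : MemLp (GG n) 2 (volume.restrict (Ioc (0 : ℝ) 1)) := by
  have h : MemLp (fun t => ∑ x ∈ farey n, ll ((x : ℝ) - t)) 2 (volume.restrict (Ioc (0 : ℝ) 1)) := by
    refine memLp_finsetSum _ fun x hx => ?_
    rw [memLp_two_iff_integrable_sq (meas_ll (x : ℝ)).aestronglyMeasurable]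
    exact sq_integrable (farey_real hx).1 (farey_real hx).2
  exact h

lemma GG_sq (n : ℕ) : IntegrableOn (fun t => GG n t ^ 2) (Ioc (0 : ℝ) 1) :=
  (memLp_two_iff_integrable_sq (GG_meas n).aestronglyMeasurable).1 (GG_memLp n)

lemma GG_int (n : ℕ) : IntegrableOn (GG n) (Ioc (0 : ℝ) 1) := by
  have h : IntegrableOn (fun t => ∑ x ∈ farey n, ll ((x : ℝ) - t)) (Ioc (0 : ℝ) 1) :=
    integrable_finsetSum _ fun x hx => abs_integrable (farey_real hx).1 (farey_real hx).2
  exact h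

/-- the exponential sum over Farey fractions -/
def cK (n : ℕ) (k : ℤ) : ℂ := ∑ x ∈ farey n, ee (-(k * (x : ℝ)))

lemma coef_int {r : ℝ} (h0 : 0 ≤ r) (h1 : r ≤ 1) (k : ℤ) :
    IntervalIntegrable (fun t => ((ll (r - t) : ℝ) : ℂ) * ee (-(k * t))) volume 0 1 := by
  rw [intervalIntegrable_iff_integrableOn_Ioc_of_le zero_le_one]
  have h2 := (abs_integrable h0 h1).ofReal (𝕜 := ℂ)
  have hm2 : Continuous fun t : ℝ => ee (-(k * t)) := by fun_prop
  refine Integrable.mono h2 (h2.aestronglyMeasurable.mul hm2.aestronglyMeasurable) (Eventually.of_forall fun t => ?_)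
  rw [norm_mul, ee_norm, mul_one]
  exact le_rfl

lemma coef_GG (n : ℕ) (k : ℤ) :
    ∫ t in (0 : ℝ)..1, ((GG n t : ℝ) : ℂ) * ee (-(k * t)) =
      if k = 0 then 0 else -(((1 / (2 * |(k : ℝ)|) : ℝ)) : ℂ) * cK n k := by
  have e : (fun t : ℝ => ((GG n t : ℝ) : ℂ) * ee (-(k * t))) =
      fun t : ℝ => ∑ x ∈ farey n, ((ll ((x : ℝ) - t) : ℝ) : ℂ) * ee (-(k * t)) := by
    funext t
    unfold GG
    push_cast
    rw [Finset.sum_mul]
  rw [e, intervalIntegral.integral_finsetSum fun x hx => coef_int (farey_real hx).1 (farey_real hx).2 k]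
  rw [Finset.sum_congr rfl fun x hx => coef_ll (farey_real hx).1 (farey_real hx).2 k]
  split_ifs with hk
  · simp
  · unfold cK
    rw [Finset.mul_sum]

/-! ### The coefficients of the error function `E` -/

lemma int_ee_ab {k : ℤ} (hk : k ≠ 0) (a b : ℝ) :
    ∫ t in a..b, ee (-(k * t)) = (ee (-(k * b)) - ee (-(k * a))) / (-(2 * Real.pi * k * I)) := by
  have hk' : (k : ℂ) ≠ 0 := by exact_mod_cast hk
  have hpi : (Real.pi : ℂ) ≠ 0 := by exact_mod_cast Real.pi_ne_zero
  have hc : (-(2 * Real.pi * k * I) : ℂ) ≠ 0 :=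
    neg_ne_zero.2 (mul_ne_zero (mul_ne_zero (mul_ne_zero two_ne_zero hpi) hk') I_ne_zero)
  have e1 : ∀ t : ℝ, ee (-(k * t)) = Complex.exp ((-(2 * Real.pi * k * I) : ℂ) * t) := by
    intro t
    unfold ee
    congr 1
    push_cast
    ring
  simp only [e1]
  rw [integral_exp_mul_complex hc]

lemma int_t_ee {k : ℤ} (hk : k ≠ 0) :
    ∫ t in (0 : ℝ)..1, (t : ℂ) * ee (-(k * t)) = 1 / (-(2 * Real.pi * k * I)) := by
  have hk' : (k : ℂ) ≠ 0 := by exact_mod_cast hk
  have hpi : (Real.pi : ℂ) ≠ 0 := by exact_mod_cast Real.pi_ne_zero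
  set c : ℂ := (-(2 * Real.pi * k * I) : ℂ) with hcdef
  have hc : c ≠ 0 :=
    neg_ne_zero.2 (mul_ne_zero (mul_ne_zero (mul_ne_zero two_ne_zero hpi) hk') I_ne_zero)
  have e1 : ∀ t : ℝ, ee (-(k * t)) = Complex.exp (c * t) := by
    intro t
    unfold ee
    congr 1
    rw [hcdef]
    push_cast
    ring
  have hd : ∀ t ∈ uIcc (0 : ℝ) 1, HasDerivAt (fun t : ℝ => ((t : ℂ) / c - 1 / c ^ 2) * Complex.exp (c * t))
      ((t : ℂ) * ee (-(k * t))) t := by
    intro t _
    have h1 : HasDerivAt (fun t : ℝ => ((t : ℝ) : ℂ)) 1 t := Complex.ofRealCLM.hasDerivAt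
    have h2 : HasDerivAt (fun t : ℝ => (t : ℂ) / c - 1 / c ^ 2) (1 / c) t := (h1.div_const c).sub_const _
    have h3 : HasDerivAt (fun t : ℝ => c * (t : ℂ)) (c * 1) t := h1.const_mul c
    have h4 := h3.cexp
    have h5 := h2.mul h4
    refine h5.congr_deriv ?_
    rw [e1]
    field_simp
    ring
  have hcont : Continuous fun t : ℝ => (t : ℂ) * ee (-(k * t)) := by fun_prop
  rw [intervalIntegral.integral_eq_sub_of_hasDerivAt hd (hcont.intervalIntegrable _ _)]
  have h6 : Complex.exp (c * ((1 : ℝ) : ℂ)) = 1 := by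
    rw [← e1]
    have := ee_int (-k)
    push_cast at this
    rw [← this]
    congr 1
    ring
  rw [h6]
  simp

lemma int_step_ee {k : ℤ} (hk : k ≠ 0) {x : ℝ} (h0 : 0 ≤ x) (h1 : x ≤ 1) :
    ∫ t in (0 : ℝ)..1, (((if x ≤ t then (1 : ℝ) else 0) - t : ℝ) : ℂ) * ee (-(k * t)) =
      ee (-(k * x)) / (2 * Real.pi * k * I) := by
  have hk' : (k : ℂ) ≠ 0 := by exact_mod_cast hk
  have hpi : (Real.pi : ℂ) ≠ 0 := by exact_mod_cast Real.pi_ne_zero
  have hc : (2 * Real.pi * k * I : ℂ) ≠ 0 :=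
    mul_ne_zero (mul_ne_zero (mul_ne_zero two_ne_zero hpi) hk') I_ne_zero
  have hcont : Continuous fun t : ℝ => (t : ℂ) * ee (-(k * t)) := by fun_prop
  have hcont2 : Continuous fun t : ℝ => ee (-(k * t)) := by fun_prop
  have A1 : IntervalIntegrable (fun t : ℝ => (((if x ≤ t then (1 : ℝ) else 0) : ℝ) : ℂ) * ee (-(k * t))) volume 0 x := by
    have : IntervalIntegrable (fun _ : ℝ => (0 : ℂ)) volume 0 x := intervalIntegrable_const
    refine this.congr_ae ?_
    rw [Filter.EventuallyEq, ae_restrict_iff' measurableSet_uIoc]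
    have hne : ∀ᵐ t : ℝ, t ≠ x := by
      rw [ae_iff]; simp
    filter_upwards [hne] with t ht hmem
    rw [uIoc_of_le h0] at hmem
    rw [if_neg (by intro h; exact ht (le_antisymm hmem.2 h))]
    simp
  have A2 : IntervalIntegrable (fun t : ℝ => (((if x ≤ t then (1 : ℝ) else 0) : ℝ) : ℂ) * ee (-(k * t))) volume x 1 := by
    refine (hcont2.intervalIntegrable x 1).congr ?_
    intro t ht
    rw [uIoc_of_le h1] at ht
    simp only
    rw [if_pos ht.1.le]
    simp
  have B1 : ∫ t in (0 : ℝ)..x, (((if x ≤ t then (1 : ℝ) else 0) : ℝ) : ℂ) * ee (-(k * t)) = 0 := by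
    rw [intervalIntegral.integral_zero_ae]
    have hne : ∀ᵐ t : ℝ, t ≠ x := by
      rw [ae_iff]; simp
    filter_upwards [hne] with t ht hmem
    rw [uIoc_of_le h0] at hmem
    rw [if_neg (by intro h; exact ht (le_antisymm hmem.2 h))]
    simp
  have B2 : ∫ t in x..1, (((if x ≤ t then (1 : ℝ) else 0) : ℝ) : ℂ) * ee (-(k * t)) =
      (ee (-(k * 1)) - ee (-(k * x))) / (-(2 * Real.pi * k * I)) := by
    have h := int_ee_ab hk x 1
    rw [← h]
    refine intervalIntegral.integral_congr_ae (Eventually.of_forall fun t ht => ?_)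
    rw [uIoc_of_le h1] at ht
    rw [if_pos ht.1.le]
    simp
  have e : (fun t : ℝ => (((if x ≤ t then (1 : ℝ) else 0) - t : ℝ) : ℂ) * ee (-(k * t))) =
      fun t : ℝ => (((if x ≤ t then (1 : ℝ) else 0) : ℝ) : ℂ) * ee (-(k * t)) - (t : ℂ) * ee (-(k * t)) := by
    funext t
    push_cast
    ring
  rw [e, intervalIntegral.integral_sub (A1.trans A2) (hcont.intervalIntegrable _ _),
    ← intervalIntegral.integral_add_adjacent_intervals A1 A2, B1, B2, int_t_ee hk]
  have h6 : ee (-(k * 1)) = 1 := by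
    have := ee_int (-k)
    push_cast at this
    rw [mul_one]
    exact this
  rw [h6]
  field_simp
  ring

lemma coef_Ef {n : ℕ} (hn : 1 ≤ n) {k : ℤ} (hk : k ≠ 0) :
    ∫ t in (0 : ℝ)..1, ((Ef n t : ℝ) : ℂ) * ee (-(k * t)) = cK n k / (2 * Real.pi * k * I) := by
  have e : ∫ t in (0 : ℝ)..1, ((Ef n t : ℝ) : ℂ) * ee (-(k * t)) =
      ∫ t in (0 : ℝ)..1, ∑ x ∈ farey n, (((if (x : ℝ) ≤ t then (1 : ℝ) else 0) - t : ℝ) : ℂ) * ee (-(k * t)) := by
    refine intervalIntegral.integral_congr_ae (Eventually.of_forall fun t ht => ?_)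
    rw [uIoc_of_le zero_le_one] at ht
    rw [← cnt_sub hn ht.1.le ht.2, ← Finset.sum_mul]
    congr 1
    unfold cnt
    push_cast
    rw [Finset.sum_sub_distrib, Finset.sum_const, nsmul_eq_mul]
  rw [e, intervalIntegral.integral_finsetSum]
  · rw [Finset.sum_congr rfl fun x hx => int_step_ee hk (farey_real hx).1 (farey_real hx).2]
    unfold cK
    rw [Finset.sum_div]
  · intro x hx
    rw [intervalIntegrable_iff_integrableOn_Ioc_of_le zero_le_one]
    have hm : Measurable fun t : ℝ => (((if (x : ℝ) ≤ t then (1 : ℝ) else 0) - t : ℝ) : ℂ) * ee (-(k * t)) := by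
      have h1 : Measurable fun t : ℝ => (if (x : ℝ) ≤ t then (1 : ℝ) else 0) :=
        Measurable.ite measurableSet_Ici measurable_const measurable_const
      have h2 : Measurable fun t : ℝ => (((if (x : ℝ) ≤ t then (1 : ℝ) else 0) - t : ℝ) : ℂ) :=
        Complex.measurable_ofReal.comp (h1.sub measurable_id)
      have h3 : Continuous fun t : ℝ => ee (-(k * t)) := by fun_prop
      exact h2.mul h3.measurable
    refine Integrable.mono' (g := fun _ => (2 : ℝ)) (integrableOn_const (by simp)) hm.aestronglyMeasurable ?_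
    filter_upwards [ae_restrict_mem measurableSet_Ioc] with t ht
    rw [norm_mul, ee_norm, mul_one, Complex.norm_real, Real.norm_eq_abs, abs_le]
    constructor <;> split_ifs <;> linarith [ht.1, ht.2]

/-! ### Parseval -/

lemma fcoef (f : ℝ → ℝ) (k : ℤ) : fourierCoeffOn (zero_lt_one' ℝ) (fun t => ((f t : ℝ) : ℂ)) k =
    ∫ t in (0 : ℝ)..1, ((f t : ℝ) : ℂ) * ee (-(k * t)) := by
  rw [fourierCoeffOn_eq_integral]
  rw [show (1 : ℝ) / (1 - 0) = 1 by norm_num, one_smul]
  refine intervalIntegral.integral_congr fun t _ => ?_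
  simp only [smul_eq_mul]
  rw [mul_comm]
  congr 1
  rw [fourier_coe_apply]
  unfold ee
  congr 1
  push_cast
  ring

lemma parseval {f : ℝ → ℝ} (hf : MemLp f 2 (volume.restrict (Ioc (0 : ℝ) 1))) :
    HasSum (fun k : ℤ => ‖∫ t in (0 : ℝ)..1, ((f t : ℝ) : ℂ) * ee (-(k * t))‖ ^ 2)
      (∫ t in (0 : ℝ)..1, f t ^ 2) := by
  have h := hasSum_sq_fourierCoeffOn (zero_lt_one' ℝ) (f := fun t => ((f t : ℝ) : ℂ)) hf.ofReal
  simp only [fcoef] at h
  rw [show ((1 : ℝ) - 0)⁻¹ = 1 by norm_num, one_smul] at h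
  convert h using 1
  refine intervalIntegral.integral_congr fun t _ => ?_
  simp only [Complex.norm_real, Real.norm_eq_abs, sq_abs]

theorem GG_sq_le {n : ℕ} (hn : 1 ≤ n) :
    ∫ t in (0 : ℝ)..1, GG n t ^ 2 ≤ Real.pi ^ 2 * ∫ t in (0 : ℝ)..1, Ef n t ^ 2 := by
  have h1 := parseval (GG_memLp n)
  have hE : MemLp (Ef n) 2 (volume.restrict (Ioc (0 : ℝ) 1)) := by
    rw [memLp_two_iff_integrable_sq (Ef_measurable n).aestronglyMeasurable]
    exact (intervalIntegrable_iff_integrableOn_Ioc_of_le zero_le_one).1 (Ef_sq_ii n 0 1)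
  have h2 := (parseval hE).mul_left (Real.pi ^ 2)
  refine hasSum_le (fun k => ?_) h1 h2
  rw [coef_GG]
  split_ifs with hk
  · rw [norm_zero, zero_pow two_ne_zero]
    exact mul_nonneg (sq_nonneg _) (sq_nonneg _)
  · rw [coef_Ef hn hk, norm_mul, norm_div, norm_neg, Complex.norm_real]
    have hk' : (0 : ℝ) < |(k : ℝ)| := abs_pos.2 (by exact_mod_cast hk)
    have e : ‖(2 * Real.pi * k * I : ℂ)‖ = 2 * Real.pi * |(k : ℝ)| := by
      rw [norm_mul, norm_mul, norm_mul, Complex.norm_I, mul_one, Complex.norm_real, Real.norm_of_nonneg Real.pi_pos.le,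
        Complex.norm_intCast]
      simp
    rw [e, Real.norm_of_nonneg (by positivity)]
    refine le_of_eq ?_
    have hpi := Real.pi_ne_zero
    field_simp

end

end Pool.Agent.TH803.CH
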