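import Pool.Agent.TH803.CH.Poi

set_option autoImplicit false

/-! # The kernel `∑_k |k| F(k) e(ku)` and its decay away from `0` -/

open MeasureTheory Filter Topology Set Complex
open Pool.Agent.H295R2
open scoped FourierTransform SchwartzMap ContDiff

namespace Pool.Agent.TH803.CH

noncomputable section

/-- polynomial decay of Schwartz functions -/
lemma schwartz_cubic (G : 𝓢(ℝ, ℂ)) : ∃ C > 0, ∀ ξ : ℝ, ‖G ξ‖ ≤ C / (1 + |ξ|) ^ 4 := by
  obtain ⟨C1, hC1, h1⟩ := G.decay 0 0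
  obtain ⟨C3, hC3, h3⟩ := G.decay 4 0
  refine ⟨8 * (C1 + C3), by positivity, fun ξ => ?_⟩
  have a1 := h1 ξ
  have a3 := h3 ξ
  rw [norm_iteratedFDeriv_zero, Real.norm_eq_abs, pow_zero, one_mul] at a1
  rw [norm_iteratedFDeriv_zero, Real.norm_eq_abs] at a3
  rw [le_div_iff₀ (by positivity)]
  have hx := abs_nonneg ξ
  have hG := norm_nonneg (G ξ)
  have e : (1 + |ξ|) ^ 4 ≤ 8 * (1 + |ξ| ^ 4) := by
    nlinarith [sq_nonneg (1 - |ξ|), sq_nonneg (1 - |ξ| ^ 2), sq_nonneg (|ξ| * (1 - |ξ|)), sq_nonneg (1 + |ξ|)]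
  calc ‖G ξ‖ * (1 + |ξ|) ^ 4 ≤ ‖G ξ‖ * (8 * (1 + |ξ| ^ 4)) := by gcongr
    _ = 8 * (‖G ξ‖ + |ξ| ^ 4 * ‖G ξ‖) := by ring
    _ ≤ 8 * (C1 + C3) := by linarith

lemma near {x w : ℝ} (h : |w - x| ≤ 1) : 1 + |x| ≤ 2 * (1 + |w|) := by
  have h1 : |x| ≤ |w| + |w - x| := by
    have h2 := abs_sub_abs_le_abs_sub x w
    rw [abs_sub_comm x w] at h2
    linarith
  have := abs_nonneg w
  linarith

lemma hasDerivAt_mul_abs (x : ℝ) : HasDerivAt (fun y : ℝ => y * |y|) (2 * |x|) x := by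
  rcases lt_trichotomy x 0 with h | h | h
  · have h1 : HasDerivAt (fun y : ℝ => y * -y) (1 * -x + x * -1) x := (hasDerivAt_id x).mul (hasDerivAt_id x).neg
    refine (h1.congr_of_eventuallyEq ?_).congr_deriv ?_
    · filter_upwards [gt_mem_nhds h] with y hy
      rw [abs_of_neg hy]
    · rw [abs_of_neg h]; ring
  · subst h
    rw [hasDerivAt_iff_isLittleO_nhds_zero]
    simp only [zero_add, abs_zero, mul_zero, sub_zero, smul_zero]
    rw [Asymptotics.isLittleO_iff]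
    intro c hc
    filter_upwards [Metric.ball_mem_nhds (0 : ℝ) hc] with y hy
    rw [Metric.mem_ball, dist_zero_right, Real.norm_eq_abs] at hy
    rw [norm_mul, Real.norm_eq_abs, Real.norm_eq_abs, abs_abs]
    exact mul_le_mul_of_nonneg_right hy.le (abs_nonneg _) |>.trans (le_of_eq rfl)
  · have h1 : HasDerivAt (fun y : ℝ => y * y) (1 * x + x * 1) x := (hasDerivAt_id x).mul (hasDerivAt_id x)
    refine (h1.congr_of_eventuallyEq ?_).congr_deriv ?_
    · filter_upwards [lt_mem_nhds h] with y hy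
      rw [abs_of_pos hy]
    · rw [abs_of_pos h]; ring

/-- second differences of a `C^{1,1}` function -/
lemma second_diff {f f' : ℝ → ℂ} {x h L : ℝ} (hh : 0 ≤ h)
    (hd : ∀ y, HasDerivAt f (f' y) y) (hL : ∀ y, |y - x| ≤ h → ‖f' y - f' x‖ ≤ L * |y - x|) (hL0 : 0 ≤ L) :
    ‖f (x + h) + f (x - h) - 2 * f x‖ ≤ 2 * L * h ^ 2 := by
  have key : ∀ z, |z - x| ≤ h → ‖(f z - (z : ℂ) * f' x) - (f x - (x : ℂ) * f' x)‖ ≤ L * h * h := by
    intro z hz
    have hconv : Convex ℝ (Metric.closedBall x h) := convex_closedBall x h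
    have h1 := hconv.norm_image_sub_le_of_norm_hasDerivWithin_le (f := fun y : ℝ => f y - (y : ℂ) * f' x)
      (f' := fun y => f' y - 1 * f' x) (C := L * h) (x := x) (y := z) ?_ ?_ ?_ ?_
    · refine h1.trans ?_
      rw [Real.norm_eq_abs]
      gcongr
    · intro y _
      have h2 : HasDerivAt (fun t : ℝ => ((t : ℝ) : ℂ)) 1 y := Complex.ofRealCLM.hasDerivAt
      exact ((hd y).sub (h2.mul_const (f' x))).hasDerivWithinAt
    · intro y hy
      rw [Metric.mem_closedBall, Real.dist_eq] at hy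
      rw [one_mul]
      refine (hL y hy).trans ?_
      gcongr
    · exact Metric.mem_closedBall_self hh
    · rw [Metric.mem_closedBall, Real.dist_eq]; exact hz
  have k1 := key (x + h) (by rw [add_sub_cancel_left, abs_of_nonneg hh])
  have k2 := key (x - h) (by rw [sub_sub_cancel_left, abs_neg, abs_of_nonneg hh])
  have e : f (x + h) + f (x - h) - 2 * f x =
      ((f (x + h) - ((x + h : ℝ) : ℂ) * f' x) - (f x - (x : ℂ) * f' x)) +
      ((f (x - h) - ((x - h : ℝ) : ℂ) * f' x) - (f x - (x : ℂ) * f' x)) := by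
    push_cast; ring
  rw [e]
  refine (norm_add_le _ _).trans ?_
  nlinarith

/-- second differences of `ξ |ξ| G(ξ)` -/
lemma second_diff_H (G : 𝓢(ℝ, ℂ)) : ∃ C > 0, ∀ x h : ℝ, 0 ≤ h → h ≤ 1 →
    ‖(((x + h) * |x + h| : ℝ) : ℂ) * G (x + h) + (((x - h) * |x - h| : ℝ) : ℂ) * G (x - h) -
      2 * (((x * |x| : ℝ) : ℂ) * G x)‖ ≤ C * h ^ 2 / (1 + |x|) ^ 2 := by
  set G2 : 𝓢(ℝ, ℂ) := SchwartzMap.derivCLM ℝ ℂ G with hG2
  set G3 : 𝓢(ℝ, ℂ) := SchwartzMap.derivCLM ℝ ℂ G2 with hG3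
  have d1 : ∀ y, HasDerivAt (G : ℝ → ℂ) (G2 y) y := by
    intro y
    rw [hG2, SchwartzMap.derivCLM_apply]
    exact (G.differentiableAt).hasDerivAt
  have d2 : ∀ y, HasDerivAt (G2 : ℝ → ℂ) (G3 y) y := by
    intro y
    rw [hG3, SchwartzMap.derivCLM_apply]
    exact (G2.differentiableAt).hasDerivAt
  obtain ⟨A1, hA1, a1⟩ := schwartz_cubic G
  obtain ⟨A2, hA2, a2⟩ := schwartz_cubic G2
  obtain ⟨A3, hA3, a3⟩ := schwartz_cubic G3
  set A : ℝ := 3 * (A1 + A2 + A3) with hA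
  have hA0 : 0 < A := by positivity
  -- `R = 2 G + ξ G'`
  set R : ℝ → ℂ := fun y => 2 * G y + (y : ℂ) * G2 y with hR
  have dR : ∀ y, HasDerivAt R (3 * G2 y + (y : ℂ) * G3 y) y := by
    intro y
    have h2 : HasDerivAt (fun t : ℝ => ((t : ℝ) : ℂ)) 1 y := Complex.ofRealCLM.hasDerivAt
    have h3 := ((d1 y).const_mul (2 : ℂ)).add (h2.mul (d2 y))
    refine h3.congr_deriv ?_
    ring
  have bR : ∀ y, ‖R y‖ ≤ A / (1 + |y|) ^ 3 := by
    intro y
    have hy := abs_nonneg y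
    simp only [hR]
    refine (norm_add_le _ _).trans ?_
    rw [norm_mul, norm_mul, Complex.norm_real, Real.norm_eq_abs, Complex.norm_ofNat, le_div_iff₀ (by positivity)]
    have b1 := a1 y
    have b2 := a2 y
    rw [le_div_iff₀ (by positivity)] at b1 b2
    have e1 : ‖G y‖ * (1 + |y|) ^ 3 ≤ A1 := by
      refine le_trans ?_ b1
      apply mul_le_mul_of_nonneg_left _ (norm_nonneg _)
      exact pow_le_pow_right₀ (by linarith) (by norm_num)
    have e2 : |y| * ‖G2 y‖ * (1 + |y|) ^ 3 ≤ A2 := by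
      refine le_trans ?_ b2
      have : (1 + |y|) ^ 4 = (1 + |y|) * (1 + |y|) ^ 3 := by ring
      rw [this]
      have h3 : 0 ≤ ‖G2 y‖ * (1 + |y|) ^ 3 := by positivity
      nlinarith
    nlinarith
  have bR' : ∀ y, ‖3 * G2 y + (y : ℂ) * G3 y‖ ≤ A / (1 + |y|) ^ 3 := by
    intro y
    have hy := abs_nonneg y
    refine (norm_add_le _ _).trans ?_
    rw [norm_mul, norm_mul, Complex.norm_real, Real.norm_eq_abs, Complex.norm_ofNat, le_div_iff₀ (by positivity)]
    have b1 := a2 y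
    have b2 := a3 y
    rw [le_div_iff₀ (by positivity)] at b1 b2
    have e1 : ‖G2 y‖ * (1 + |y|) ^ 3 ≤ A2 := by
      refine le_trans ?_ b1
      apply mul_le_mul_of_nonneg_left _ (norm_nonneg _)
      exact pow_le_pow_right₀ (by linarith) (by norm_num)
    have e2 : |y| * ‖G3 y‖ * (1 + |y|) ^ 3 ≤ A3 := by
      refine le_trans ?_ b2
      have : (1 + |y|) ^ 4 = (1 + |y|) * (1 + |y|) ^ 3 := by ring
      rw [this]
      have h3 : 0 ≤ ‖G3 y‖ * (1 + |y|) ^ 3 := by positivity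
      nlinarith
    nlinarith
  refine ⟨32 * A, by positivity, fun x h h0 h1 => ?_⟩
  have dH : ∀ y, HasDerivAt (fun y : ℝ => (((y * |y| : ℝ)) : ℂ) * G y) (((|y| : ℝ) : ℂ) * R y) y := by
    intro y
    have h2 := (hasDerivAt_mul_abs y).ofReal_comp
    have h3 := h2.mul (d1 y)
    refine h3.congr_deriv ?_
    simp only [hR]
    push_cast
    ring
  have hxn := abs_nonneg x
  have hball : ∀ w, |w - x| ≤ 1 → A / (1 + |w|) ^ 3 ≤ 8 * A / (1 + |x|) ^ 3 := by
    intro w hw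
    have hn := near hw
    have hwn := abs_nonneg w
    rw [div_le_div_iff₀ (by positivity) (by positivity)]
    have : (1 + |x|) ^ 3 ≤ (2 * (1 + |w|)) ^ 3 := pow_le_pow_left₀ (by positivity) hn 3
    nlinarith
  have hLip : ∀ y, |y - x| ≤ h → ‖((|y| : ℝ) : ℂ) * R y - ((|x| : ℝ) : ℂ) * R x‖ ≤
      (16 * A / (1 + |x|) ^ 2) * |y - x| := by
    intro y hy
    have hy1 : |y - x| ≤ 1 := hy.trans h1
    have m1 : ‖R y - R x‖ ≤ (8 * A / (1 + |x|) ^ 3) * |y - x| := by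
      have hconv : Convex ℝ (Metric.closedBall x 1) := convex_closedBall x 1
      have h5 := hconv.norm_image_sub_le_of_norm_hasDerivWithin_le (f := R)
        (f' := fun y => 3 * G2 y + (y : ℂ) * G3 y) (C := 8 * A / (1 + |x|) ^ 3) (x := x) (y := y)
        (fun w _ => (dR w).hasDerivWithinAt)
        (fun w hw => (bR' w).trans (hball w (by rwa [Metric.mem_closedBall, Real.dist_eq] at hw)))
        (Metric.mem_closedBall_self zero_le_one) (by rwa [Metric.mem_closedBall, Real.dist_eq])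
      rwa [Real.norm_eq_abs] at h5
    have m2 : ‖R y‖ ≤ 8 * A / (1 + |x|) ^ 3 := (bR y).trans (hball y hy1)
    have e : ((|y| : ℝ) : ℂ) * R y - ((|x| : ℝ) : ℂ) * R x =
        (((|y| - |x| : ℝ)) : ℂ) * R y + ((|x| : ℝ) : ℂ) * (R y - R x) := by push_cast; ring
    rw [e]
    refine (norm_add_le _ _).trans ?_
    rw [norm_mul, norm_mul, Complex.norm_real, Complex.norm_real, Real.norm_eq_abs, Real.norm_eq_abs, abs_abs]
    have m3 : |(|y| - |x|)| ≤ |y - x| := abs_abs_sub_abs_le_abs_sub y x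
    have hB0 : 0 ≤ 8 * A / (1 + |x|) ^ 3 := by positivity
    have hB1 : 8 * A / (1 + |x|) ^ 3 ≤ 8 * A / (1 + |x|) ^ 2 := by
      apply div_le_div_of_nonneg_left (by positivity) (by positivity)
      exact pow_le_pow_right₀ (by linarith) (by norm_num)
    have hB2 : |x| * (8 * A / (1 + |x|) ^ 3) ≤ 8 * A / (1 + |x|) ^ 2 := by
      rw [mul_div_assoc', div_le_div_iff₀ (by positivity) (by positivity)]
      have : (1 + |x|) ^ 3 = (1 + |x|) * (1 + |x|) ^ 2 := by ring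
      rw [this]
      have h6 : 0 ≤ 8 * A * (1 + |x|) ^ 2 := by positivity
      nlinarith
    have hyx := abs_nonneg (y - x)
    calc |(|y| - |x|)| * ‖R y‖ + |x| * ‖R y - R x‖
        ≤ |y - x| * (8 * A / (1 + |x|) ^ 3) + |x| * ((8 * A / (1 + |x|) ^ 3) * |y - x|) := by
          gcongr
      _ = (8 * A / (1 + |x|) ^ 3 + |x| * (8 * A / (1 + |x|) ^ 3)) * |y - x| := by ring
      _ ≤ (8 * A / (1 + |x|) ^ 2 + 8 * A / (1 + |x|) ^ 2) * |y - x| := by gcongr
      _ = _ := by ring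
  have hfin := second_diff (f := fun y : ℝ => (((y * |y| : ℝ)) : ℂ) * G y) (f' := fun y => ((|y| : ℝ) : ℂ) * R y)
    (x := x) (h := h) (L := 16 * A / (1 + |x|) ^ 2) h0 dH hLip (by positivity)
  refine hfin.trans (le_of_eq ?_)
  ring

end

end Pool.Agent.TH803.CH
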