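import Pool.Agent.TH803.CH.Ker

set_option autoImplicit false

/-! # The local lower bound for `∫ |log |F_n||` -/

open MeasureTheory Filter Topology Set Complex
open Pool.Agent.H295R2
open scoped FourierTransform SchwartzMap ContDiff

namespace Pool.Agent.TH803.CH

noncomputable section

/-- the kernel -/
def KK (a : ℤ → ℂ) (u : ℝ) : ℂ := ∑' k : ℤ, a k * ee (k * u)

lemma KK_summable {a : ℤ → ℂ} (ha : Summable fun k => ‖a k‖) (u : ℝ) : Summable fun k : ℤ => a k * ee (k * u) := by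
  refine Summable.of_norm ?_
  simp only [norm_mul, ee_norm, mul_one]
  exact ha

lemma KK_le {a : ℤ → ℂ} (ha : Summable fun k => ‖a k‖) (u : ℝ) : ‖KK a u‖ ≤ ∑' k : ℤ, ‖a k‖ := by
  refine tsum_of_norm_bounded ha.hasSum fun k => ?_
  rw [norm_mul, ee_norm, mul_one]

lemma KK_shift {a : ℤ → ℂ} (u : ℝ) (m : ℤ) :
    ∑' k : ℤ, a (k + m) * ee (k * u) = ee (-(m * u)) * KK a u := by
  unfold KK
  rw [← tsum_mul_left, ← (Equiv.addRight m).tsum_eq (fun k : ℤ => ee (-(m * u)) * (a k * ee (k * u)))]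
  refine tsum_congr fun k => ?_
  simp only [Equiv.coe_addRight]
  rw [mul_left_comm, ← ee_add]
  congr 2
  push_cast
  ring

lemma KK_parts {a : ℤ → ℂ} (ha : Summable fun k => ‖a k‖) (u : ℝ) :
    ‖1 - ee u‖ ^ 2 * ‖KK a u‖ ≤ ∑' k : ℤ, ‖a (k + 1) + a (k + -1) - 2 * a k‖ := by
  have hs := KK_summable ha u
  have hs1 : Summable fun k : ℤ => a (k + 1) * ee (k * u) := by
    refine Summable.of_norm ?_
    simp only [norm_mul, ee_norm, mul_one]
    exact (Equiv.addRight (1 : ℤ)).summable_iff.2 ha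
  have hs2 : Summable fun k : ℤ => a (k + -1) * ee (k * u) := by
    refine Summable.of_norm ?_
    simp only [norm_mul, ee_norm, mul_one]
    exact (Equiv.addRight (-1 : ℤ)).summable_iff.2 ha
  have h1 : ∑' k : ℤ, (a (k + 1) + a (k + -1) - 2 * a k) * ee (k * u) =
      (ee (-u) + ee u - 2) * KK a u := by
    have e : (fun k : ℤ => (a (k + 1) + a (k + -1) - 2 * a k) * ee (k * u)) =
        fun k : ℤ => a (k + 1) * ee (k * u) + a (k + -1) * ee (k * u) - 2 * (a k * ee (k * u)) := by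
      funext k; ring
    rw [e, Summable.tsum_sub (hs1.add hs2) (hs.mul_left 2), Summable.tsum_add hs1 hs2, KK_shift, KK_shift, tsum_mul_left]
    have e1 : ee (-(((1 : ℤ) : ℝ) * u)) = ee (-u) := by congr 1; push_cast; ring
    have e2 : ee (-(((-1 : ℤ) : ℝ) * u)) = ee u := by congr 1; push_cast; ring
    rw [e1, e2]
    unfold KK
    ring
  have h2 : ‖ee (-u) + ee u - 2‖ = ‖1 - ee u‖ ^ 2 := by
    have e3 : ee (-u) * ee u = 1 := by rw [← ee_add, neg_add_cancel, ee_zero]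
    have e4 : ee (-u) + ee u - 2 = -((1 - ee u) * (1 - ee (-u))) := by
      linear_combination e3
    have e5 : ‖1 - ee (-u)‖ = ‖1 - ee u‖ := by
      have : 1 - ee (-u) = (starRingEnd ℂ) (1 - ee u) := by rw [map_sub, map_one, ee_conj]
      rw [this, Complex.norm_conj]
    rw [e4, norm_neg, norm_mul, e5, sq]
  have hsd : Summable fun k : ℤ => ‖a (k + 1) + a (k + -1) - 2 * a k‖ := by
    have A1 : Summable fun k : ℤ => ‖a (k + 1)‖ := (Equiv.addRight (1 : ℤ)).summable_iff.2 ha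
    have A2 : Summable fun k : ℤ => ‖a (k + -1)‖ := (Equiv.addRight (-1 : ℤ)).summable_iff.2 ha
    refine Summable.of_nonneg_of_le (fun _ => norm_nonneg _) (fun k => ?_) ((A1.add A2).add (ha.mul_left 2))
    refine (norm_sub_le _ _).trans ?_
    rw [norm_mul, Complex.norm_ofNat]
    have := norm_add_le (a (k + 1)) (a (k + -1))
    linarith
  calc ‖1 - ee u‖ ^ 2 * ‖KK a u‖ = ‖∑' k : ℤ, (a (k + 1) + a (k + -1) - 2 * a k) * ee (k * u)‖ := by
        rw [h1, norm_mul, h2]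
    _ ≤ _ := by
        refine tsum_of_norm_bounded hsd.hasSum fun k => ?_
        rw [norm_mul, ee_norm, mul_one]

lemma away {r δ t : ℝ} (h1 : δ ≤ r) (h2 : r ≤ 1 - δ) (hδ : 0 < δ) (ht0 : 0 ≤ t) (ht1 : t ≤ 1)
    (h : δ ≤ |t - r|) : 4 * δ ≤ ‖1 - ee (t - r)‖ := by
  refine le_trans ?_ (norm_lower (by linarith) (by linarith))
  have a1 : δ ≤ |t - r - 1| := by rw [abs_of_nonpos (by linarith)]; linarith
  have a2 : δ ≤ |t - r + 1| := by rw [abs_of_nonneg (by linarith)]; linarith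
  have := le_min h (le_min a1 a2)
  linarith

/-- **The local key inequality.** -/
theorem local_key {φ : ℝ → ℝ} (hφ : Bump φ) {r δ : ℝ} (hδ : 0 < δ) (hr1 : δ ≤ r) (hr2 : r ≤ 1 - δ) :
    ∃ C > 0, ∀ n : ℕ, ∀ D : ℝ, 1 ≤ D → 2 / D ≤ δ →
    |∑ x ∈ farey n, deriv φ (D * ((x : ℝ) - r))| ≤
      C * D * (∫ t in (r - δ)..(r + δ), |GG n t|) + C / D * ∫ t in (0 : ℝ)..1, |GG n t| := by
  obtain ⟨hφ1, hφ2⟩ := hφ
  have hcs : HasCompactSupport φ := HasCompactSupport.of_support_subset_isCompact isCompact_Icc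
    ((subset_tsupport φ).trans hφ2)
  have hψ1 : ContDiff ℝ ∞ (deriv φ) := ((contDiff_infty_iff_deriv (𝕜 := ℝ) (f := φ)).1 hφ1).2
  have hψ2 : HasCompactSupport (deriv φ) := hcs.deriv
  have hψsupp : ∀ y : ℝ, y ∉ Icc (1 : ℝ) 2 → deriv φ y = 0 := by
    intro y hy
    have h1 : tsupport (deriv φ) ⊆ tsupport φ := tsupport_deriv_subset
    by_contra h
    exact hy (hφ2 (h1 (subset_tsupport _ h)))
  set ψ : ℝ → ℂ := fun y => ((deriv φ y : ℝ) : ℂ) with hψdef
  set φc : ℝ → ℂ := fun y => ((φ y : ℝ) : ℂ) with hφcdef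
  have hψc1 : ContDiff ℝ ∞ ψ := Complex.ofRealCLM.contDiff.comp hψ1
  have hψc2 : HasCompactSupport ψ := hψ2.comp_left (g := fun r : ℝ => (r : ℂ)) Complex.ofReal_zero
  have hφc1 : ContDiff ℝ ∞ φc := Complex.ofRealCLM.contDiff.comp hφ1
  have hφc2 : HasCompactSupport φc := hcs.comp_left (g := fun r : ℝ => (r : ℂ)) Complex.ofReal_zero
  have hder : deriv φc = ψ := by
    funext y
    exact ((hφ1.differentiable (by simp)) y).hasDerivAt.ofReal_comp.deriv
  set Φ : 𝓢(ℝ, ℂ) := hφc2.toSchwartzMap hφc1 with hΦ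
  set Ψ : 𝓢(ℝ, ℂ) := hψc2.toSchwartzMap hψc1 with hΨ
  obtain ⟨C, hC0, hC⟩ := schwartz_decay (𝓕 Ψ)
  obtain ⟨C', hC0', hC'⟩ := second_diff_H (𝓕 Φ)
  have hFψ : ∀ ξ, (𝓕 Ψ) ξ = 𝓕 ψ ξ := fun ξ => rfl
  have hFφ : ∀ ξ, (𝓕 Φ) ξ = 𝓕 φc ξ := fun ξ => rfl
  have hrel : ∀ ξ : ℝ, 𝓕 ψ ξ = (2 * Real.pi * I * ξ) * (𝓕 Φ) ξ := by
    intro ξ
    rw [hFφ, ← hder]
    have := Real.fourier_deriv (f := φc) (hφc1.continuous.integrable_of_hasCompactSupport hφc2)
      (hφc1.differentiable (by simp)) (by rw [hder]; exact hψc1.continuous.integrable_of_hasCompactSupport hψc2)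
    rw [this]
    rfl
  refine ⟨6 * C + 12 * Real.pi * C' / (4 * δ) ^ 2, by positivity, fun n D hD1 hDδ => ?_⟩
  have hD0 : 0 < D := by linarith
  -- Fourier coefficients
  set F : ℤ → ℂ := fun k => 𝓕 (fun y => ψ (D * y)) (k : ℝ) with hF
  set a : ℤ → ℂ := fun k => ((|(k : ℝ)| : ℝ) : ℂ) * F k with ha
  have ha' : ∀ k : ℤ, a k = (2 * Real.pi * I) * (((((k : ℝ) / D) * |(k : ℝ) / D| : ℝ) : ℂ) * (𝓕 Φ) ((k : ℝ) / D)) := by
    intro k
    simp only [ha, hF]
    rw [four_scale ψ hD0, hrel, abs_div, abs_of_pos hD0]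
    push_cast
    ring
  have hFk : ∀ k : ℤ, ‖a k‖ ≤ C * (1 / (1 + |(k : ℝ) / D|) ^ 2) := by
    intro k
    simp only [ha, hF]
    rw [norm_mul, Complex.norm_real, Real.norm_eq_abs, abs_abs, four_scale ψ hD0, norm_mul, Complex.norm_real,
      Real.norm_of_nonneg (by positivity)]
    have := hC ((k : ℝ) / D)
    rw [hFψ] at this
    calc |(k : ℝ)| * (1 / D * ‖𝓕 ψ ((k : ℝ) / D)‖) = |(k : ℝ) / D| * ‖𝓕 ψ ((k : ℝ) / D)‖ := by
          rw [abs_div, abs_of_pos hD0]; ring
      _ ≤ _ := by rw [mul_one_div]; exact this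
  have hF00 : F 0 = 0 := by
    simp only [hF]
    rw [four_scale ψ hD0, hrel]
    simp
  obtain ⟨hs, hsb⟩ := int_sum_bound hD1
  have hasum : Summable fun k => ‖a k‖ := Summable.of_nonneg_of_le (fun _ => norm_nonneg _) hFk (hs.mul_left C)
  have hatot : ∑' k, ‖a k‖ ≤ 3 * C * D := by
    calc ∑' k, ‖a k‖ ≤ ∑' k : ℤ, C * (1 / (1 + |(k : ℝ) / D|) ^ 2) := Summable.tsum_le_tsum hFk hasum (hs.mul_left C)
      _ = C * ∑' k : ℤ, (1 / (1 + |(k : ℝ) / D|) ^ 2) := tsum_mul_left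
      _ ≤ C * (3 * D) := by gcongr
      _ = _ := by ring
  have hFsum : Summable F := by
    refine Summable.of_norm_bounded hasum fun k => ?_
    rcases eq_or_ne k 0 with h | h
    · rw [h, hF00, norm_zero]
      positivity
    · have h1 : (1 : ℝ) ≤ |(k : ℝ)| := by
        rw [← Int.cast_abs]
        exact_mod_cast Int.one_le_abs h
      simp only [ha]
      rw [norm_mul, Complex.norm_real, Real.norm_eq_abs, abs_abs]
      exact le_mul_of_one_le_left (norm_nonneg _) h1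
  -- second differences
  have hdd : ∀ k : ℤ, ‖a (k + 1) + a (k + -1) - 2 * a k‖ ≤
      (2 * Real.pi * C' / D ^ 2) * (1 / (1 + |(k : ℝ) / D|) ^ 2) := by
    intro k
    have h1 := hC' ((k : ℝ) / D) (1 / D) (by positivity) (by rw [div_le_one hD0]; exact hD1)
    have e1 : ((k + 1 : ℤ) : ℝ) / D = (k : ℝ) / D + 1 / D := by push_cast; ring
    have e2 : ((k + -1 : ℤ) : ℝ) / D = (k : ℝ) / D - 1 / D := by push_cast; ring
    rw [ha', ha', ha', e1, e2]
    have e3 : ∀ u v w : ℂ, (2 * Real.pi * I) * u + (2 * Real.pi * I) * v - 2 * ((2 * Real.pi * I) * w) =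
        (2 * Real.pi * I) * (u + v - 2 * w) := by intro u v w; ring
    rw [e3, norm_mul]
    have e4 : ‖(2 * Real.pi * I : ℂ)‖ = 2 * Real.pi := by
      rw [norm_mul, norm_mul, Complex.norm_I, mul_one, Complex.norm_real, Real.norm_of_nonneg Real.pi_pos.le]
      simp
    rw [e4]
    calc 2 * Real.pi * _ ≤ 2 * Real.pi * (C' * (1 / D) ^ 2 / (1 + |(k : ℝ) / D|) ^ 2) := by
          apply mul_le_mul_of_nonneg_left h1; positivity
      _ = _ := by
          rw [one_div_pow]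
          ring
  have hddtot : ∑' k : ℤ, ‖a (k + 1) + a (k + -1) - 2 * a k‖ ≤ 6 * Real.pi * C' / D := by
    have hsm : Summable fun k : ℤ => (2 * Real.pi * C' / D ^ 2) * (1 / (1 + |(k : ℝ) / D|) ^ 2) := hs.mul_left _
    calc ∑' k : ℤ, ‖a (k + 1) + a (k + -1) - 2 * a k‖
        ≤ ∑' k : ℤ, (2 * Real.pi * C' / D ^ 2) * (1 / (1 + |(k : ℝ) / D|) ^ 2) :=
          Summable.tsum_le_tsum hdd (Summable.of_nonneg_of_le (fun _ => norm_nonneg _) hdd hsm) hsm
      _ = (2 * Real.pi * C' / D ^ 2) * ∑' k : ℤ, (1 / (1 + |(k : ℝ) / D|) ^ 2) := tsum_mul_left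
      _ ≤ (2 * Real.pi * C' / D ^ 2) * (3 * D) := by gcongr
      _ = _ := by field_simp; ring
  -- Poisson summation
  have hcont : Continuous fun y : ℝ => ψ (D * y) := hψc1.continuous.comp (by fun_prop)
  have hcomp : HasCompactSupport fun y : ℝ => ψ (D * y) := by
    have := hψc2.comp_homeomorph (Homeomorph.mulLeft₀ D hD0.ne')
    exact this
  have hO : (fun y : ℝ => ψ (D * y)) =O[cocompact ℝ] fun x : ℝ => |x| ^ (-(2 : ℝ)) := by
    have h1 : (fun y : ℝ => ψ (D * y)) =ᶠ[cocompact ℝ] fun _ => 0 := by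
      rw [hasCompactSupport_iff_eventuallyEq] at hcomp
      exact hcomp.filter_mono (by rw [coclosedCompact_eq_cocompact])
    exact (Asymptotics.isBigO_zero _ _).congr' h1.symm EventuallyEq.rfl
  have hpois : ∀ x ∈ farey n, ((deriv φ (D * ((x : ℝ) - r)) : ℝ) : ℂ) = ∑' k : ℤ, F k * ee (k * ((x : ℝ) - r)) := by
    intro x hx
    have hx01 := farey_real hx
    have hx0 : 0 < (x : ℝ) := by
      rw [mem_farey] at hx
      exact_mod_cast hx.1
    have h1 := Real.tsum_eq_tsum_fourier_of_rpow_decay_of_summable hcont (b := 2) one_lt_two hO hFsum ((x : ℝ) - r)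
    have h2 : ∑' m : ℤ, ψ (D * ((x : ℝ) - r + m)) = ψ (D * ((x : ℝ) - r)) := by
      rw [tsum_eq_single 0]
      · simp
      · intro m hm
        have h3 : D * ((x : ℝ) - r + m) ∉ Icc (1 : ℝ) 2 := by
          rintro ⟨h4, h5⟩
          rcases lt_or_gt_of_ne hm with h6 | h6
          · have h7 : (m : ℝ) ≤ -1 := by
              have : m ≤ -1 := by omega
              exact_mod_cast this
            have h8 : (x : ℝ) - r + m ≤ 0 := by linarith
            nlinarith
          · have h7 : (1 : ℝ) ≤ m := by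
              have : 1 ≤ m := by omega
              exact_mod_cast this
            have h8 : δ < (x : ℝ) - r + m := by linarith
            have h9 : 2 ≤ D * δ := by rw [div_le_iff₀ hD0] at hDδ; linarith
            have h10 : D * δ < D * ((x : ℝ) - r + m) := mul_lt_mul_of_pos_left h8 hD0
            linarith
        simp only [hψdef]
        rw [hψsupp _ h3, Complex.ofReal_zero]
    rw [h2] at h1
    have h9 : ((deriv φ (D * ((x : ℝ) - r)) : ℝ) : ℂ) = ψ (D * ((x : ℝ) - r)) := rfl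
    rw [h9, h1]
    refine tsum_congr fun k => ?_
    congr 1
    rw [fourier_coe_apply]
    unfold ee
    congr 1
    push_cast
    ring
  have hsumx : ∀ x ∈ farey n, Summable fun k : ℤ => F k * ee (k * ((x : ℝ) - r)) := by
    intro x _
    refine Summable.of_norm ?_
    simp only [norm_mul, ee_norm, mul_one]
    exact hFsum.norm
  have hterm : ∀ k : ℤ, F k * (ee (-(k * r)) * cK n (-k)) =
      ∫ t in Ioc (0 : ℝ) 1, (-2 * ((GG n t : ℝ) : ℂ)) * (a k * ee (k * (t - r))) := by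
    intro k
    have e : (fun t : ℝ => (-2 * ((GG n t : ℝ) : ℂ)) * (a k * ee (k * (t - r)))) =
        fun t : ℝ => (-2 * a k * ee (-(k * r))) * (((GG n t : ℝ) : ℂ) * ee (-(((-k : ℤ) : ℝ) * t))) := by
      funext t
      have : ee (k * (t - r)) = ee (-(k * r)) * ee (-(((-k : ℤ) : ℝ) * t)) := by
        rw [← ee_add]; congr 1; push_cast; ring
      rw [this]; ring
    rw [e, integral_const_mul, ← intervalIntegral.integral_of_le zero_le_one, coef_GG]
    rcases eq_or_ne k 0 with h | h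
    · rw [h]; simp [hF00]
    · rw [if_neg (neg_ne_zero.2 h)]
      have hk' : (|(k : ℝ)| : ℝ) ≠ 0 := (abs_pos.2 (by exact_mod_cast h)).ne'
      have hk'' : ((|(k : ℝ)| : ℝ) : ℂ) ≠ 0 := by exact_mod_cast hk'
      simp only [ha]
      rw [Int.cast_neg, abs_neg]
      push_cast
      field_simp
  have htot : ((∑ x ∈ farey n, deriv φ (D * ((x : ℝ) - r)) : ℝ) : ℂ) =
      ∑' k : ℤ, ∫ t in Ioc (0 : ℝ) 1, (-2 * ((GG n t : ℝ) : ℂ)) * (a k * ee (k * (t - r))) := by
    push_cast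
    rw [Finset.sum_congr rfl hpois, ← Summable.tsum_finsetSum hsumx]
    refine tsum_congr fun k => ?_
    rw [← hterm]
    unfold cK
    rw [Finset.mul_sum, Finset.mul_sum]
    refine Finset.sum_congr rfl fun x _ => ?_
    rw [← ee_add]
    congr 2
    push_cast
    ring
  have hgi : Integrable (fun t => ((GG n t : ℝ) : ℂ)) (volume.restrict (Ioc (0 : ℝ) 1)) := (GG_int n).ofReal
  have hFint : ∀ k : ℤ, Integrable (fun t => (-2 * ((GG n t : ℝ) : ℂ)) * (a k * ee (k * (t - r))))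
      (volume.restrict (Ioc (0 : ℝ) 1)) := by
    intro k
    have hc : Continuous fun t : ℝ => a k * ee (k * (t - r)) := by fun_prop
    have h1 : Integrable (fun t => (-2 * ((GG n t : ℝ) : ℂ)) * a k) (volume.restrict (Ioc (0 : ℝ) 1)) :=
      (hgi.const_mul (-2)).mul_const _
    refine h1.mono ((hgi.const_mul (-2)).aestronglyMeasurable.mul hc.aestronglyMeasurable)
      (Eventually.of_forall fun t => ?_)
    rw [norm_mul, norm_mul (a k), ee_norm, mul_one, norm_mul _ (a k)]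
  have hFn : ∀ k : ℤ, ∫ t in Ioc (0 : ℝ) 1, ‖(-2 * ((GG n t : ℝ) : ℂ)) * (a k * ee (k * (t - r)))‖ =
      (2 * ∫ t in Ioc (0 : ℝ) 1, |GG n t|) * ‖a k‖ := by
    intro k
    rw [← integral_const_mul, ← integral_mul_const]
    refine integral_congr_ae (Eventually.of_forall fun t => ?_)
    simp only
    rw [norm_mul, norm_mul (a k), ee_norm, mul_one, norm_mul, norm_neg, Complex.norm_ofNat, Complex.norm_real,
      Real.norm_eq_abs]
  have hFs : Summable fun k : ℤ => ∫ t in Ioc (0 : ℝ) 1, ‖(-2 * ((GG n t : ℝ) : ℂ)) * (a k * ee (k * (t - r)))‖ := by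
    simp only [hFn]
    exact hasum.mul_left _
  rw [integral_tsum_of_summable_integral_norm hFint hFs] at htot
  have hK : ∀ t : ℝ, ∑' k : ℤ, (-2 * ((GG n t : ℝ) : ℂ)) * (a k * ee (k * (t - r))) =
      (-2 * ((GG n t : ℝ) : ℂ)) * KK a (t - r) := fun t => tsum_mul_left
  simp only [hK] at htot
  -- the bound
  set A : Set ℝ := Ioc (r - δ) (r + δ) with hA
  have hAsub : A ⊆ Ioc 0 1 := by
    intro t ht
    exact ⟨by have := ht.1; linarith, by have := ht.2; linarith⟩
  have habs : IntegrableOn (fun t => |GG n t|) (Ioc (0 : ℝ) 1) := (GG_int n).abs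
  have hbint : IntegrableOn (fun t => 6 * C * D * A.indicator (fun t => |GG n t|) t +
      12 * Real.pi * C' / (4 * δ) ^ 2 / D * |GG n t|) (Ioc (0 : ℝ) 1) :=
    ((habs.indicator measurableSet_Ioc).const_mul _).add (habs.const_mul _)
  have hbound : ‖∫ t in Ioc (0 : ℝ) 1, (-2 * ((GG n t : ℝ) : ℂ)) * KK a (t - r)‖ ≤
      ∫ t in Ioc (0 : ℝ) 1, (6 * C * D * A.indicator (fun t => |GG n t|) t +
        12 * Real.pi * C' / (4 * δ) ^ 2 / D * |GG n t|) := by
    refine norm_integral_le_of_norm_le hbint ?_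
    filter_upwards [ae_restrict_mem measurableSet_Ioc] with t ht
    rw [norm_mul, norm_mul, norm_neg, Complex.norm_ofNat, Complex.norm_real, Real.norm_eq_abs]
    have hgn := abs_nonneg (GG n t)
    by_cases hmem : t ∈ A
    · rw [indicator_of_mem hmem]
      have h1 : ‖KK a (t - r)‖ ≤ 3 * C * D := (KK_le hasum _).trans hatot
      have h2 : 0 ≤ 12 * Real.pi * C' / (4 * δ) ^ 2 / D * |GG n t| := by positivity
      nlinarith
    · rw [indicator_of_notMem hmem, mul_zero, zero_add]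
      have h3 : δ ≤ |t - r| := by
        by_contra h
        push Not at h
        rw [abs_lt] at h
        exact hmem ⟨by linarith [h.1], by linarith [h.2]⟩
      have h4 := away hr1 hr2 hδ ht.1.le ht.2 h3
      have h5 := KK_parts hasum (t - r)
      have h6 : (4 * δ) ^ 2 * ‖KK a (t - r)‖ ≤ 6 * Real.pi * C' / D := by
        calc (4 * δ) ^ 2 * ‖KK a (t - r)‖ ≤ ‖1 - ee (t - r)‖ ^ 2 * ‖KK a (t - r)‖ := by gcongr
          _ ≤ _ := h5
          _ ≤ _ := hddtot
      have h7 : ‖KK a (t - r)‖ ≤ 6 * Real.pi * C' / D / (4 * δ) ^ 2 := by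
        rw [le_div_iff₀ (by positivity)]; linarith
      calc 2 * |GG n t| * ‖KK a (t - r)‖ ≤ 2 * |GG n t| * (6 * Real.pi * C' / D / (4 * δ) ^ 2) := by gcongr
        _ = _ := by ring
  have hval : ∫ t in Ioc (0 : ℝ) 1, (6 * C * D * A.indicator (fun t => |GG n t|) t +
        12 * Real.pi * C' / (4 * δ) ^ 2 / D * |GG n t|) =
      6 * C * D * (∫ t in (r - δ)..(r + δ), |GG n t|) +
        12 * Real.pi * C' / (4 * δ) ^ 2 / D * ∫ t in (0 : ℝ)..1, |GG n t| := by
    rw [integral_add ((habs.indicator measurableSet_Ioc).const_mul _) (habs.const_mul _), integral_const_mul,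
      integral_const_mul, setIntegral_indicator measurableSet_Ioc, inter_eq_self_of_subset_right hAsub,
      intervalIntegral.integral_of_le zero_le_one, intervalIntegral.integral_of_le (by linarith)]
  rw [← htot, hval, Complex.norm_real, Real.norm_eq_abs] at hbound
  refine hbound.trans ?_
  have p1 : 0 ≤ ∫ t in (r - δ)..(r + δ), |GG n t| :=
    intervalIntegral.integral_nonneg (by linarith) fun t _ => abs_nonneg _
  have p2 : 0 ≤ ∫ t in (0 : ℝ)..1, |GG n t| := intervalIntegral.integral_nonneg zero_le_one fun t _ => abs_nonneg _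
  have q1 : 6 * C ≤ 6 * C + 12 * Real.pi * C' / (4 * δ) ^ 2 := by
    have : 0 ≤ 12 * Real.pi * C' / (4 * δ) ^ 2 := by positivity
    linarith
  have q2 : 12 * Real.pi * C' / (4 * δ) ^ 2 ≤ 6 * C + 12 * Real.pi * C' / (4 * δ) ^ 2 := by linarith
  gcongr

end

end Pool.Agent.TH803.CH
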