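import Pool.Agent.TH803.CH.Gg

set_option autoImplicit false

/-! # The lower bound for `∫ |log |F_n||` : Poisson summation -/

open MeasureTheory Filter Topology Set Complex
open Pool.Agent.H295R2
open scoped FourierTransform SchwartzMap ContDiff

namespace Pool.Agent.TH803.CH

noncomputable section

lemma four_scale (ψ : ℝ → ℂ) {D : ℝ} (hD : 0 < D) (ξ : ℝ) :
    𝓕 (fun y => ψ (D * y)) ξ = ((1 / D : ℝ) : ℂ) * 𝓕 ψ (ξ / D) := by
  rw [Real.fourier_real_eq_integral_exp_smul, Real.fourier_real_eq_integral_exp_smul]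
  have h := MeasureTheory.Measure.integral_comp_mul_left
    (fun v : ℝ => Complex.exp (((-2 * Real.pi * v * (ξ / D) : ℝ) : ℂ) * I) • ψ v) D
  have e : (fun v : ℝ => Complex.exp (((-2 * Real.pi * v * ξ : ℝ) : ℂ) * I) • ψ (D * v)) =
      fun v : ℝ => (fun v : ℝ => Complex.exp (((-2 * Real.pi * v * (ξ / D) : ℝ) : ℂ) * I) • ψ v) (D * v) := by
    funext v
    simp only
    congr 4
    field_simp
  rw [e, h, abs_of_pos (inv_pos.2 hD), one_div]
  simp only [Complex.real_smul]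

/-- quadratic decay of `ξ * 𝓕ψ(ξ)` -/
lemma schwartz_decay (G : 𝓢(ℝ, ℂ)) : ∃ C > 0, ∀ ξ : ℝ, |ξ| * ‖G ξ‖ ≤ C / (1 + |ξ|) ^ 2 := by
  obtain ⟨C1, hC1, h1⟩ := G.decay 1 0
  obtain ⟨C3, hC3, h3⟩ := G.decay 3 0
  refine ⟨2 * (C1 + C3), by positivity, fun ξ => ?_⟩
  have a1 := h1 ξ
  have a3 := h3 ξ
  rw [norm_iteratedFDeriv_zero, Real.norm_eq_abs, pow_one] at a1
  rw [norm_iteratedFDeriv_zero, Real.norm_eq_abs] at a3
  rw [le_div_iff₀ (by positivity)]
  have hx := abs_nonneg ξ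
  have hG := norm_nonneg (G ξ)
  have e : (1 + |ξ|) ^ 2 ≤ 2 * (1 + |ξ| ^ 2) := by nlinarith [sq_nonneg (1 - |ξ|)]
  calc |ξ| * ‖G ξ‖ * (1 + |ξ|) ^ 2 ≤ |ξ| * ‖G ξ‖ * (2 * (1 + |ξ| ^ 2)) := by gcongr
    _ = 2 * (|ξ| * ‖G ξ‖ + |ξ| ^ 3 * ‖G ξ‖) := by ring
    _ ≤ 2 * (C1 + C3) := by linarith

lemma tele_bound {D : ℝ} (hD : 1 ≤ D) (N : ℕ) :
    ∑ i ∈ Finset.range N, 1 / (1 + ((i : ℝ) + 1) / D) ^ 2 ≤ D - D ^ 2 / (D + N) := by
  induction N with
  | zero =>
    simp only [Finset.range_zero, Finset.sum_empty, Nat.cast_zero, add_zero]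
    have : D ≠ 0 := by linarith
    field_simp
    simp
  | succ N ih =>
    rw [Finset.sum_range_succ]
    have hD0 : 0 < D := by linarith
    have hN : (0 : ℝ) ≤ N := Nat.cast_nonneg N
    have e1 : 1 / (1 + ((N : ℝ) + 1) / D) ^ 2 = D ^ 2 / (D + N + 1) ^ 2 := by
      field_simp
      ring
    have e2 : D ^ 2 / (D + N + 1) ^ 2 ≤ D ^ 2 / (D + N) - D ^ 2 / (D + N + 1) := by
      rw [div_sub_div _ _ (by positivity) (by positivity), div_le_div_iff₀ (by positivity) (by positivity)]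
      have : 0 ≤ D ^ 2 * (D + N + 1) := by positivity
      nlinarith
    have e3 : D + ((N + 1 : ℕ) : ℝ) = D + N + 1 := by push_cast; ring
    rw [e1, e3]
    linarith

lemma int_sum_bound {D : ℝ} (hD : 1 ≤ D) :
    Summable (fun k : ℤ => 1 / (1 + |(k : ℝ) / D|) ^ 2) ∧
      ∑' k : ℤ, 1 / (1 + |(k : ℝ) / D|) ^ 2 ≤ 3 * D := by
  have hD0 : 0 < D := by linarith
  set f : ℤ → ℝ := fun k => 1 / (1 + |(k : ℝ) / D|) ^ 2 with hf
  have f0 : ∀ k, 0 ≤ f k := fun k => by positivity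
  have f1 : ∀ n : ℕ, f (-((n : ℤ) + 1)) = 1 / (1 + ((n : ℝ) + 1) / D) ^ 2 := by
    intro n
    simp only [hf]
    push_cast
    rw [show -((n : ℝ) + 1) / D = -(((n : ℝ) + 1) / D) by ring, abs_neg, abs_of_nonneg (by positivity)]
  have f2 : ∀ n : ℕ, f ((n : ℤ) + 1) = 1 / (1 + ((n : ℝ) + 1) / D) ^ 2 := by
    intro n
    simp only [hf]
    push_cast
    rw [abs_of_nonneg (by positivity)]
  have f3 : f 0 = 1 := by simp [hf]
  have b1 : ∀ N : ℕ, ∑ i ∈ Finset.range N, f (-((i : ℤ) + 1)) ≤ D := by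
    intro N
    simp only [f1]
    refine (tele_bound hD N).trans ?_
    have : 0 ≤ D ^ 2 / (D + N) := by positivity
    linarith
  have b2 : ∀ N : ℕ, ∑ i ∈ Finset.range N, f (i : ℤ) ≤ 2 * D := by
    intro N
    rcases Nat.eq_zero_or_pos N with h | h
    · subst h
      simp only [Finset.range_zero, Finset.sum_empty]
      linarith
    · obtain ⟨M, rfl⟩ := Nat.exists_eq_succ_of_ne_zero h.ne'
      rw [Finset.sum_range_succ']
      have e : ∀ i : ℕ, f ((i + 1 : ℕ) : ℤ) = 1 / (1 + ((i : ℝ) + 1) / D) ^ 2 := by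
        intro i
        rw [← f2 i]
        push_cast
        rfl
      simp only [e]
      have h3 : f ((0 : ℕ) : ℤ) = 1 := by rw [Nat.cast_zero]; exact f3
      rw [h3]
      have := tele_bound hD M
      have h4 : 0 ≤ D ^ 2 / (D + M) := by positivity
      linarith
  have s1 : Summable (fun n : ℕ => f (-((n : ℤ) + 1))) := summable_of_sum_range_le (fun n => f0 _) b1
  have s2 : Summable (fun n : ℕ => f (n : ℤ)) := summable_of_sum_range_le (fun n => f0 _) b2
  refine ⟨Summable.of_nat_of_neg_add_one s2 s1, ?_⟩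
  rw [tsum_of_nat_of_neg_add_one s2 s1]
  have t1 := Real.tsum_le_of_sum_range_le (fun n => f0 _) b1
  have t2 := Real.tsum_le_of_sum_range_le (fun n => f0 _) b2
  linarith

lemma cK_le (n : ℕ) {k : ℤ} (hk : k ≠ 0) : ‖cK n k‖ ≤ 2 * |(k : ℝ)| * ∫ t in (0 : ℝ)..1, |GG n t| := by
  have h := coef_GG n k
  rw [if_neg hk] at h
  have hk' : (0 : ℝ) < |(k : ℝ)| := abs_pos.2 (by exact_mod_cast hk)
  have h2 : ‖∫ t in (0 : ℝ)..1, ((GG n t : ℝ) : ℂ) * ee (-(k * t))‖ ≤ ∫ t in (0 : ℝ)..1, |GG n t| := by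
    refine (intervalIntegral.norm_integral_le_integral_norm zero_le_one).trans (le_of_eq ?_)
    refine intervalIntegral.integral_congr fun t _ => ?_
    rw [norm_mul, ee_norm, mul_one, Complex.norm_real, Real.norm_eq_abs]
  rw [h, norm_mul, norm_neg, Complex.norm_real, Real.norm_of_nonneg (by positivity), one_div, inv_mul_le_iff₀ (by positivity)] at h2
  exact h2

/-- **The key inequality.** -/
theorem poisson_lower {φ : ℝ → ℝ} (hφ : Bump φ) : ∃ C > 0, ∀ n : ℕ, ∀ D : ℝ, 2 ≤ D →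
    |∑ x ∈ farey n, deriv φ (D * (x : ℝ))| ≤ C * D * ∫ t in (0 : ℝ)..1, |GG n t| := by
  obtain ⟨hφ1, hφ2⟩ := hφ
  have hcs : HasCompactSupport φ := HasCompactSupport.of_support_subset_isCompact isCompact_Icc
    ((subset_tsupport φ).trans hφ2)
  have hψ1 : ContDiff ℝ ∞ (deriv φ) := by
    have := (contDiff_infty_iff_deriv (𝕜 := ℝ) (f := φ)).1 hφ1
    exact this.2
  have hψ2 : HasCompactSupport (deriv φ) := hcs.deriv
  have hψsupp : ∀ y : ℝ, y ∉ Icc (1 : ℝ) 2 → deriv φ y = 0 := by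
    intro y hy
    have h1 : tsupport (deriv φ) ⊆ tsupport φ := tsupport_deriv_subset
    by_contra h
    exact hy (hφ2 (h1 (subset_tsupport _ h)))
  set ψ : ℝ → ℂ := fun y => ((deriv φ y : ℝ) : ℂ) with hψdef
  have hψc1 : ContDiff ℝ ∞ ψ := Complex.ofRealCLM.contDiff.comp hψ1
  have hψc2 : HasCompactSupport ψ := hψ2.comp_left (g := fun r : ℝ => (r : ℂ)) Complex.ofReal_zero
  set Ψ : 𝓢(ℝ, ℂ) := hψc2.toSchwartzMap hψc1 with hΨ
  obtain ⟨C, hC0, hC⟩ := schwartz_decay (𝓕 Ψ)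
  have hFψ : ∀ ξ, (𝓕 Ψ) ξ = 𝓕 ψ ξ := fun ξ => rfl
  have hF0 : 𝓕 ψ 0 = 0 := by
    rw [Real.fourier_real_eq_integral_exp_smul]
    have e : (fun v : ℝ => Complex.exp (((-2 * Real.pi * v * 0 : ℝ) : ℂ) * I) • ψ v) = ψ := by
      funext v
      simp
    rw [e]
    have h1 : ∫ y, deriv φ y = 0 := by
      refine integral_eq_zero_of_hasDerivAt_of_integrable (f := φ) (f' := deriv φ) ?_ ?_ ?_
      · intro x
        exact ((hφ1.differentiable (by simp)) x).hasDerivAt
      · exact hψ1.continuous.integrable_of_hasCompactSupport hψ2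
      · exact hφ1.continuous.integrable_of_hasCompactSupport hcs
    have h2 : ∫ y, ψ y = ((∫ y, deriv φ y : ℝ) : ℂ) := integral_ofReal
    rw [h2, h1, Complex.ofReal_zero]
  refine ⟨6 * C, by positivity, fun n D hD => ?_⟩
  have hD0 : 0 < D := by linarith
  have hD1 : 1 ≤ D := by linarith
  set N1 : ℝ := ∫ t in (0 : ℝ)..1, |GG n t| with hN1
  have hN1' : 0 ≤ N1 := intervalIntegral.integral_nonneg zero_le_one fun t _ => abs_nonneg _
  -- Fourier coefficients
  set F : ℤ → ℂ := fun k => 𝓕 (fun y => ψ (D * y)) (k : ℝ) with hF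
  have hFk : ∀ k : ℤ, |(k : ℝ)| * ‖F k‖ ≤ C * (1 / (1 + |(k : ℝ) / D|) ^ 2) := by
    intro k
    simp only [hF]
    rw [four_scale ψ hD0, norm_mul, Complex.norm_real, Real.norm_of_nonneg (by positivity)]
    have := hC ((k : ℝ) / D)
    rw [hFψ] at this
    calc |(k : ℝ)| * (1 / D * ‖𝓕 ψ ((k : ℝ) / D)‖) = |(k : ℝ) / D| * ‖𝓕 ψ ((k : ℝ) / D)‖ := by
          rw [abs_div, abs_of_pos hD0]; ring
      _ ≤ _ := by rw [mul_one_div]; exact this
  have hF00 : F 0 = 0 := by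
    simp only [hF]
    rw [four_scale ψ hD0, Int.cast_zero, zero_div, hF0, mul_zero]
  obtain ⟨hs, hsb⟩ := int_sum_bound hD1
  have hFsum : Summable F := by
    refine Summable.of_norm_bounded (hs.mul_left C) fun k => ?_
    rcases eq_or_ne k 0 with h | h
    · rw [h, hF00, norm_zero]
      positivity
    · have h1 : (1 : ℝ) ≤ |(k : ℝ)| := by
        rw [← Int.cast_abs]
        exact_mod_cast Int.one_le_abs h
      calc ‖F k‖ ≤ |(k : ℝ)| * ‖F k‖ := le_mul_of_one_le_left (norm_nonneg _) h1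
        _ ≤ _ := hFk k
  have hcont : Continuous fun y : ℝ => ψ (D * y) := hψc1.continuous.comp (by fun_prop)
  have hcomp : HasCompactSupport fun y : ℝ => ψ (D * y) := by
    have := hψc2.comp_homeomorph (Homeomorph.mulLeft₀ D hD0.ne')
    exact this
  have hO : (fun y : ℝ => ψ (D * y)) =O[cocompact ℝ] fun x : ℝ => |x| ^ (-(2 : ℝ)) := by
    have h1 : (fun y : ℝ => ψ (D * y)) =ᶠ[cocompact ℝ] fun _ => 0 := by
      rw [hasCompactSupport_iff_eventuallyEq] at hcomp
      exact hcomp.filter_mono (by rw [coclosedCompact_eq_cocompact])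
    exact (Asymptotics.isBigO_zero _ _).congr' h1.symm EventuallyEq.rfl
  have hpois : ∀ x ∈ farey n, ((deriv φ (D * (x : ℝ)) : ℝ) : ℂ) = ∑' k : ℤ, F k * ee (k * (x : ℝ)) := by
    intro x hx
    have hx01 := farey_real hx
    have hx0 : 0 < (x : ℝ) := by
      rw [mem_farey] at hx
      exact_mod_cast hx.1
    have h1 := Real.tsum_eq_tsum_fourier_of_rpow_decay_of_summable hcont (b := 2) one_lt_two hO hFsum (x : ℝ)
    have h2 : ∑' m : ℤ, ψ (D * ((x : ℝ) + m)) = ψ (D * (x : ℝ)) := by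
      rw [tsum_eq_single 0]
      · simp
      · intro m hm
        have h3 : D * ((x : ℝ) + m) ∉ Icc (1 : ℝ) 2 := by
          rintro ⟨h4, h5⟩
          rcases lt_or_gt_of_ne hm with h6 | h6
          · have h7 : (m : ℝ) ≤ -1 := by
              have : m ≤ -1 := by omega
              exact_mod_cast this
            have h8 : (x : ℝ) + m ≤ 0 := by linarith
            nlinarith
          · have h7 : (1 : ℝ) ≤ m := by
              have : 1 ≤ m := by omega
              exact_mod_cast this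
            have h8 : 1 < (x : ℝ) + m := by linarith
            nlinarith
        simp only [hψdef]
        rw [hψsupp _ h3, Complex.ofReal_zero]
    rw [h2] at h1
    have h9 : ((deriv φ (D * (x : ℝ)) : ℝ) : ℂ) = ψ (D * (x : ℝ)) := rfl
    rw [h9, h1]
    refine tsum_congr fun k => ?_
    congr 1
    rw [fourier_coe_apply]
    unfold ee
    congr 1
    push_cast
    ring
  have hsumx : ∀ x ∈ farey n, Summable fun k : ℤ => F k * ee (k * (x : ℝ)) := by
    intro x _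
    refine Summable.of_norm ?_
    simp only [norm_mul, ee_norm, mul_one]
    exact hFsum.norm
  have htot : ((∑ x ∈ farey n, deriv φ (D * (x : ℝ)) : ℝ) : ℂ) = ∑' k : ℤ, F k * cK n (-k) := by
    push_cast
    rw [Finset.sum_congr rfl hpois, ← Summable.tsum_finsetSum hsumx]
    refine tsum_congr fun k => ?_
    unfold cK
    rw [Finset.mul_sum]
    refine Finset.sum_congr rfl fun x _ => ?_
    congr 2
    push_cast
    ring
  have hb : ∀ k : ℤ, ‖F k * cK n (-k)‖ ≤ 2 * C * N1 * (1 / (1 + |(k : ℝ) / D|) ^ 2) := by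
    intro k
    rcases eq_or_ne k 0 with h | h
    · rw [h, hF00, zero_mul, norm_zero]
      positivity
    · have h1 := cK_le n (neg_ne_zero.2 h)
      rw [Int.cast_neg, abs_neg] at h1
      rw [norm_mul]
      calc ‖F k‖ * ‖cK n (-k)‖ ≤ ‖F k‖ * (2 * |(k : ℝ)| * N1) := by gcongr
        _ = 2 * N1 * (|(k : ℝ)| * ‖F k‖) := by ring
        _ ≤ 2 * N1 * (C * (1 / (1 + |(k : ℝ) / D|) ^ 2)) := by
            apply mul_le_mul_of_nonneg_left (hFk k); positivity
        _ = _ := by ring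
  have hfin : ‖((∑ x ∈ farey n, deriv φ (D * (x : ℝ)) : ℝ) : ℂ)‖ ≤ 2 * C * N1 * (3 * D) := by
    rw [htot]
    refine (tsum_of_norm_bounded (hs.mul_left (2 * C * N1)).hasSum hb).trans ?_
    rw [tsum_mul_left]
    gcongr
  rw [Complex.norm_real, Real.norm_eq_abs] at hfin
  calc _ ≤ _ := hfin
    _ = _ := by ring

end

end Pool.Agent.TH803.CH
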